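import Pool.Agent.H334PI.Inf

/-!
Critical bond percolation on the square lattice, in a quadrant: connections between a set `A` and
several sets `J 0, J 1, …`. Finite volume inequalities.
-/

set_option autoImplicit false

namespace H334HI
open Finset H974 Pool.Agent.H160R2.CV H362P TH976
open Pool.Agent.H160R2.CV.Quad
open H973 (dlt dlt_pos dlt_le rswL)

/-- the circuit around a vertex of the bottom side, far from the left side, contains vertices of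
the bottom side on both sides -/
theorem CQ_feet {c : Vtx} (hc0 : c.2 = 0) {R : ℕ} (hR : 1 ≤ R) (h3 : 3 * (R : ℤ) ≤ c.1)
    {F : Finset Edg} (hF : InQ F)
    (h : CQ c R F) : ∃ t : ℤ, c.1 - 3 * R ≤ t ∧ t ≤ c.1 - R ∧ ∀ u v : Vtx, InV u → sd u c ≤ R →
      3 * R ≤ sd v c → Reach (↑F) u v → Reach (↑F) u (t, 0) := by
  obtain ⟨⟨⟨xr, xr', hxr, hxr', hr⟩, ⟨yt, yt', hyt, hyt', ht⟩⟩, hl, -⟩ := h
  obtain ⟨c1, c2⟩ := c
  simp only at hc0 hr ht hl hxr hxr' hyt hyt' h3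
  subst hc0
  have e0 : max 0 ((0 : ℤ) - 3 * (R : ℤ)) = 0 := by omega
  rw [e0] at hr
  simp only [e0] at hl
  have hR' : (1 : ℤ) ≤ R := by exact_mod_cast hR
  have hr' := hr.mono (Set.inter_subset_inter_right (↑F : Set Edg)
    (by exact_mod_cast TBE_subset_RE :
      (↑(TBE (c1 + R) (c1 + 3 * R) 0 (0 + 3 * R)) : Set Edg) ⊆ _))
  have ht' := ht.mono (Set.inter_subset_inter_right (↑F : Set Edg)
    (by exact_mod_cast LRE_subset_RE :
      (↑(LRE (max 0 (c1 - 3 * R)) (c1 + 3 * R) (0 + R) (0 + 3 * R)) : Set Edg) ⊆ _))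
  obtain ⟨xl, xl', hxl, hxl', hl1⟩ := hl h3
  have hl' := hl1.mono (Set.inter_subset_inter_right (↑F : Set Edg)
    (by exact_mod_cast TBE_subset_RE :
      (↑(TBE (c1 - 3 * R) (c1 - R) 0 (0 + 3 * R)) : Set Edg) ⊆ _))
  have mTL : Reach (↑F ∩ ↑(RE (max 0 (c1 - 3 * R)) (c1 + 3 * R) 0
      (0 + 3 * R))) (max 0 (c1 - 3 * (R : ℤ)), yt) (xl, 0) :=
    cross_meet (a := c1 - 3 * R) (b := c1 - R) (c := 0 + R) (d := 0 + 3 * R) (by omega)
      (by omega) (by omega) (by omega) (by omega) le_rfl ht' (by simp only; omega)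
      (by simp only; omega) hl' (by simp only; omega) (by simp only; omega)
  -- top and right
  have mTR : Reach (↑F ∩ ↑(RE (max 0 (c1 - 3 * R)) (c1 + 3 * R) 0
      (0 + 3 * R))) (max 0 (c1 - 3 * (R : ℤ)), yt) (xr, 0) :=
    cross_meet (a := c1 + R) (b := c1 + 3 * R) (c := 0 + R) (d := 0 + 3 * R) (by omega)
      (by omega) le_rfl (by omega) (by omega) le_rfl ht' (by simp only; omega)
      (by simp only; omega) hr' (by simp only; omega) (by simp only; omega)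
  refine ⟨xl, by simp only; omega, by simp only; omega, ?_⟩
  intro u v hu huc hvc huv
  unfold sd at huc hvc
  simp only at huc hvc
  obtain ⟨w, h1, h2, h3⟩ := first_exit (a := c1 - 3 * R) (b := c1 + 3 * R) (c := 0 - 3 * R)
    (d := 0 + 3 * R) (by unfold inR; omega) huv (by omega)
  have hB : (↑F : Set Edg) ∩ ↑(RE (c1 - 3 * R) (c1 + 3 * R) (0 - 3 * R) (0 + 3 * R)) ⊆
      ↑F ∩ ↑(RE (max 0 (c1 - 3 * R)) (c1 + 3 * R) 0 (0 + 3 * R)) := by
    rintro ⟨x, y, _ | _⟩ ⟨k1, k2⟩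
    · refine ⟨k1, ?_⟩
      have := hF _ (Finset.mem_coe.mp k1)
      simp only at this
      rw [Finset.mem_coe, mem_RE_false] at k2
      rw [Finset.mem_coe, mem_RE_false]
      omega
    · refine ⟨k1, ?_⟩
      have := hF _ (Finset.mem_coe.mp k1)
      simp only at this
      rw [Finset.mem_coe, mem_RE_true] at k2
      rw [Finset.mem_coe, mem_RE_true]
      omega
  have hP := h3.mono hB
  have hw : InV w := inV_reach hF hu (h3.mono Set.inter_subset_left)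
  unfold InV at hw
  unfold inR at h1
  rcases h2 with h2 | h2 | h2 | h2
  · -- left
    have m : Reach (↑F ∩ ↑(RE (max 0 (c1 - 3 * R)) (c1 + 3 * R) 0
        (0 + 3 * R))) w (xl, 0) :=
      cross_meet (a := c1 - 3 * R) (b := c1 - R) (c := 0) (d := 0 + 3 * R)
        (by omega) (by omega) (by omega) le_rfl (by omega) le_rfl hP.symm (by omega)
        (by omega) hl' (by simp only; omega) (by simp only; omega)
    exact (hP.trans m).mono Set.inter_subset_left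
  · -- right
    have m : Reach (↑F ∩ ↑(RE (max 0 (c1 - 3 * R)) (c1 + 3 * R) 0
        (0 + 3 * R))) u (xr, 0) :=
      cross_meet (a := c1 + R) (b := c1 + 3 * R) (c := 0)
        (d := 0 + 3 * R) (by omega) (by omega) le_rfl le_rfl (by omega) le_rfl hP (by omega)
        h2.ge hr' (by simp only; omega) (by simp only; omega)
    exact (m.trans (mTR.symm.trans mTL)).mono Set.inter_subset_left
  · -- bottom
    omega
  · -- top
    have m : Reach (↑F ∩ ↑(RE (max 0 (c1 - 3 * R)) (c1 + 3 * R) 0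
        (0 + 3 * R))) (max 0 (c1 - 3 * (R : ℤ)), yt) u :=
      cross_meet (a := max 0 (c1 - 3 * R)) (b := c1 + 3 * R) (c := 0 + R) (d := 0 + 3 * R)
        le_rfl (by omega) le_rfl (by omega) (by omega) le_rfl ht' (by simp only; omega)
        (by simp only; omega) hP (by omega) (by omega)
    exact (m.symm.trans mTL).mono Set.inter_subset_left

/-- `A` is connected to each of `J 0, …, J (k - 1)` -/
def HS (A : Set Vtx) (J : ℕ → Set Vtx) (k : ℕ) (F : Set Edg) : Prop :=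
  ∀ j < k, ∃ u ∈ A, ∃ i ∈ J j, Reach F u i

/-- the same, and `A` is connected to `q` -/
def HQ (A : Set Vtx) (J : ℕ → Set Vtx) (k : ℕ) (q : Vtx) (F : Set Edg) : Prop :=
  HS A J k F ∧ ∃ u ∈ A, Reach F u q

theorem HS.mono {A : Set Vtx} {J : ℕ → Set Vtx} {k : ℕ} {F G : Set Edg} (h : F ⊆ G)
    (hF : HS A J k F) : HS A J k G := by
  intro j hj
  obtain ⟨u, hu, i, hi, h1⟩ := hF j hj
  exact ⟨u, hu, i, hi, h1.mono h⟩

theorem HS.le {A : Set Vtx} {J : ℕ → Set Vtx} {k n : ℕ} {F : Set Edg} (h : k ≤ n)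
    (hF : HS A J n F) : HS A J k F := fun j hj => hF j (lt_of_lt_of_le hj h)

theorem HQ.mono {A : Set Vtx} {J : ℕ → Set Vtx} {k : ℕ} {q : Vtx} {F G : Set Edg} (h : F ⊆ G)
    (hF : HQ A J k q F) : HQ A J k q G := by
  obtain ⟨h1, u, hu, h2⟩ := hF
  exact ⟨h1.mono h, u, hu, h2.mono h⟩

theorem HS_incr (S : Finset Edg) (A : Set Vtx) (J : ℕ → Set Vtx) (k : ℕ) :
    IncrE S (fun F => HS A J k (↑F)) :=
  fun _ _ h _ hF => HS.mono (by exact_mod_cast h) hF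

/-- removing the ball around `q` -/
theorem unw {A : Set Vtx} {J : ℕ → Set Vtx} {k n : ℕ} {q : Vtx} (hq1 : 0 ≤ q.1) (hq2 : q.2 = 0)
    {R : ℕ} (hR : 1 ≤ R) (hA : ∀ u ∈ A, 3 * R ≤ sd u q)
    (hJ : ∀ j < n, (j < k ∧ ∀ i ∈ J j, 3 * R ≤ sd i q) ∨
      (3 * (R : ℤ) ≤ q.1 ∧ ∀ t : ℤ, q.1 - 3 * R ≤ t → t ≤ q.1 - R → (t, (0 : ℤ)) ∈ J j) ∨
      (∀ t : ℤ, q.1 + R ≤ t → t ≤ q.1 + 3 * R → (t, (0 : ℤ)) ∈ J j))
    {S : Finset Edg} (hSQ : InQ S) (hS : qb q (3 * R) ⊆ S) :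
    k4 * Pr P S (fun F => HQ A J k q (↑F)) ≤ aq q R * Pr P S (fun F => HS A J n (↑F)) := by
  classical
  have hq : InV q := ⟨hq1, by omega⟩
  set B := qb q R with hB
  set S2 := S \ B with hS2
  set E : Finset Edg → Prop := fun F => HQ A J k q (↑(F ∩ S2) ∪ ↑B) with hE
  have hEi : IncA E := by
    intro F G h hF
    have hm : (↑(F ∩ S2) : Set Edg) ∪ ↑B ⊆ ↑(G ∩ S2) ∪ ↑B := by
      refine Set.union_subset_union_left _ ?_
      exact_mod_cast Finset.inter_subset_inter_right h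
    exact HQ.mono hm hF
  have hEl : LocE S2 E := by
    intro F
    rw [hE]
    simp only [Finset.inter_assoc, Finset.inter_self]
  have hd : Disjoint B S2 := by rw [hS2]; exact Finset.disjoint_sdiff
  have s1 : Pr P S (fun F => HQ A J k q (↑F)) ≤ Pr P S (fun F => ArL q R F ∧ E F) := by
    apply Pr_mono okP
    intro F hFS hF
    have hm : (↑F : Set Edg) ⊆ ↑(F ∩ S2) ∪ ↑B := by
      intro e he
      by_cases h1 : e ∈ B
      · exact Or.inr (by exact_mod_cast h1)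
      · left
        rw [Finset.mem_coe, Finset.mem_inter, hS2, Finset.mem_sdiff]
        exact ⟨Finset.mem_coe.mp he, hFS (Finset.mem_coe.mp he), h1⟩
    obtain ⟨-, u, hu, h2⟩ := id hF
    exact ⟨Ar_loc (hSQ.mono hFS) (m := 3 * R) (by omega) ⟨u, hA u hu, h2.symm⟩, hF.mono hm⟩
  have s2 := indep2 S B S2 hd (ArL_inc q R) hEi (ArL_loc q R) hEl
  rw [pr_ArL] at s2
  have s4 : Pr P S2 E ≤ Pr P S E :=
    Pr_mono_set okP Finset.sdiff_subset (fun F G h _ => hEi F G h)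
  have hcirc : k4 ≤ Pr P S (CQ q R) := pr_CQ' hq hR hS
  have s5 : Pr P S E * Pr P S (CQ q R) ≤ Pr P S (fun F => HS A J n (↑F)) := by
    refine (Pr_harris okP (fun F G h _ => hEi F G h) (CQ_incr S q R)).trans ?_
    apply Pr_mono okP
    rintro F hFS ⟨⟨h1, u0, hu0, h1'⟩, h2⟩
    have hsub : (↑(F ∩ S2) : Set Edg) ⊆ ↑F := by exact_mod_cast Finset.inter_subset_left
    have hends : ∀ e ∈ (↑B : Set Edg), (InV (src e) ∧ sd (src e) q ≤ R) ∧ (InV (tgt e) ∧ sd (tgt e) q ≤ R) := by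
      intro e he
      exact qb_ends (Finset.mem_coe.mp he)
    -- `u0` reaches the ball
    have hball : ∃ w, InV w ∧ sd w q ≤ R ∧ Reach (↑F) u0 w := by
      rcases hit_or (T := fun w => InV w ∧ sd w q ≤ R) hends h1' with h3 | ⟨w, h3, h4⟩
      · exact ⟨q, hq, by rw [sd_self]; omega, h3.mono hsub⟩
      · exact ⟨w, h3.1, h3.2, h4.mono hsub⟩
    obtain ⟨w, hw1, hw2, hw3⟩ := hball
    intro j hj
    rcases hJ j hj with ⟨h3, h4⟩ | ⟨h3, h4⟩ | h3
    · obtain ⟨u, hu, i, hi, h5⟩ := h1 j h3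
      refine ⟨u, hu, i, hi, ?_⟩
      refine unwireQ_in hq hR (hSQ.mono hFS) h2 (A := ↑B) hends (hA u hu) (h4 i hi) ?_
      exact h5.mono (Set.union_subset_union_left _ hsub)
    · obtain ⟨t, ht1, ht2, hz⟩ := CQ_feet hq2 hR h3 (hSQ.mono hFS) h2
      exact ⟨u0, hu0, (t, 0), h4 t ht1 ht2, hw3.trans (hz w u0 hw1 hw2 (hA u0 hu0) hw3.symm)⟩
    · obtain ⟨t, ht1, ht2, hz⟩ := H334PI.CQ_meetB hq1 hq2 hR (hSQ.mono hFS) h2
      exact ⟨u0, hu0, (t, 0), h3 t ht1 ht2, hw3.trans (hz w u0 hw1 hw2 (hA u0 hu0) hw3.symm)⟩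
  have p0 : 0 ≤ Pr P S E := Pr_nonneg okP _ _
  have p1 : 0 ≤ aq q R := aq_nonneg q R
  have s6 : k4 * Pr P S E ≤ Pr P S (fun F => HS A J n (↑F)) := by
    rw [mul_comm]
    exact (mul_le_mul_of_nonneg_left hcirc p0).trans s5
  calc k4 * Pr P S (fun F => HQ A J k q (↑F)) ≤ k4 * (aq q R * Pr P S2 E) :=
        mul_le_mul_of_nonneg_left (s1.trans s2) k4_pos.le
    _ = aq q R * (k4 * Pr P S2 E) := by ring
    _ ≤ aq q R * (k4 * Pr P S E) := by
        apply mul_le_mul_of_nonneg_left _ p1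
        exact mul_le_mul_of_nonneg_left s4 k4_pos.le
    _ ≤ _ := mul_le_mul_of_nonneg_left s6 p1

/-- adding an arm from `q` -/
theorem glue {A : Set Vtx} {J : ℕ → Set Vtx} {k n : ℕ} (hkn : k ≤ n) {q : Vtx} (hq : InV q)
    (hq2 : q.2 = 0) {R : ℕ} (hR : 1 ≤ R)
    (hJ : ((∃ j < n, ∀ i ∈ J j, InV i ∧ sd i q ≤ R) ∧ ∀ u ∈ A, 3 * R ≤ sd u q) ∨
      (3 * (R : ℤ) ≤ q.1 ∧ ∀ t : ℤ, q.1 - 3 * R ≤ t → t ≤ q.1 - R → (t, (0 : ℤ)) ∈ A))
    {S : Finset Edg} (hSQ : InQ S) (hS : qb q (3 * R) ⊆ S) :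
    k4 * aq q (3 * R) * Pr P S (fun F => HS A J n (↑F)) ≤ Pr P S (fun F => HQ A J k q (↑F)) := by
  have h1 : k4 ≤ Pr P S (CQ q R) := pr_CQ' hq hR hS
  have h2 : aq q (3 * R) ≤ Pr P S (Ar q (3 * R)) := pr_Ar_ge hS
  have p0 : 0 ≤ Pr P S (fun F => HS A J n (↑F)) := Pr_nonneg okP _ _
  have i1 := fkg (CQ_incr S q R) (Ar_incr S q (3 * R)) (aq_nonneg _ _) h1 h2
  have i2 := fkg (incr_and (CQ_incr S q R) (Ar_incr S q (3 * R))) (HS_incr S A J n) p0 i1 le_rfl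
  refine i2.trans ?_
  apply Pr_mono okP
  rintro F hFS ⟨⟨k1, v, hv, hqv⟩, k5⟩
  refine ⟨k5.le hkn, ?_⟩
  rcases hJ with ⟨⟨j, hj, hJj⟩, hA⟩ | ⟨h3, hA⟩
  · obtain ⟨z, hz⟩ := CQ_meet hq hR (hSQ.mono hFS) k1
    obtain ⟨u, hu, i, hi, hui⟩ := k5 j hj
    have m1 := hz q v hq (by rw [sd_self]; omega) hv hqv
    have m2 := hz i u (hJj i hi).1 (hJj i hi).2 (hA u hu) hui.symm
    exact ⟨u, hu, hui.trans (m2.trans m1.symm)⟩
  · obtain ⟨t, ht1, ht2, hz⟩ := CQ_feet hq2 hR h3 (hSQ.mono hFS) k1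
    exact ⟨(t, 0), hA t ht1 ht2, (hz q v hq (by rw [sd_self]; omega) hv hqv).symm⟩

end H334HI
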