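import Pool.Agent.H334HI.Fin
import Pool.Agent.H334PI.Fun

/-!
The half-plane: the inequalities for the infinite volume.
-/

set_option autoImplicit false

namespace H334HI
open Finset H974 Pool.Agent.H160R2.CV H362P TH976
open Pool.Agent.H160R2.CV.Quad Pool.Agent.H389R2.CD

theorem HS_box {A : Set Vtx} {J : ℕ → Set Vtx} {k : ℕ} :
    ∀ F : Set Edg, HS A J k F → ∃ m : ℕ, HS A J k (F ∩ ↑(boxE m)) := by
  intro F
  induction k with
  | zero => exact fun _ => ⟨0, fun j hj => absurd hj (Nat.not_lt_zero j)⟩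
  | succ k ih =>
    intro h
    obtain ⟨m1, hm1⟩ := ih (h.le (Nat.le_succ k))
    obtain ⟨u, hu, i, hi, h1⟩ := h k (Nat.lt_succ_self k)
    obtain ⟨m2, hm2⟩ := InfAux.reach_box h1
    refine ⟨max m1 m2, ?_⟩
    intro j hj
    rcases Nat.lt_succ_iff_lt_or_eq.mp hj with h2 | rfl
    · exact hm1.mono (Set.inter_subset_inter_right _ (InfAux.boxE_coe_mono (le_max_left _ _))) j h2
    · exact ⟨u, hu, i, hi, hm2.mono
        (Set.inter_subset_inter_right _ (InfAux.boxE_coe_mono (le_max_right _ _)))⟩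

theorem HQ_box {A : Set Vtx} {J : ℕ → Set Vtx} {k : ℕ} {q : Vtx} :
    ∀ F : Set Edg, HQ A J k q F → ∃ m : ℕ, HQ A J k q (F ∩ ↑(boxE m)) := by
  rintro F ⟨h, u, hu, h1⟩
  obtain ⟨m1, hm1⟩ := HS_box F h
  obtain ⟨m2, hm2⟩ := InfAux.reach_box h1
  exact ⟨max m1 m2,
    hm1.mono (Set.inter_subset_inter_right _ (InfAux.boxE_coe_mono (le_max_left _ _))), u, hu,
    hm2.mono (Set.inter_subset_inter_right _ (InfAux.boxE_coe_mono (le_max_right _ _)))⟩

/-- the translated family -/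
def shJ (L : ℤ) (J : ℕ → Set Vtx) : ℕ → Set Vtx := fun j => sh L '' J j

theorem HS_sh (L : ℤ) (A : Set Vtx) (J : ℕ → Set Vtx) (k : ℕ) (F : Finset Edg) :
    HS (sh L '' A) (shJ L J) k (↑((trl (-L) (-1)).mp F)) ↔ HS A J k (↑F) := by
  have key : ∀ u v : Vtx, Reach (↑((trl (-L) (-1)).mp F) : Set Edg) (sh L u) (sh L v) ↔
      Reach (↑F : Set Edg) u v := by
    intro u v
    rw [LSym.coe_mp, sh_eq, sh_eq, LSym.reach_iff]
  constructor
  · intro h j hj
    obtain ⟨u', ⟨u, hu, rfl⟩, i', ⟨i, hi, rfl⟩, h1⟩ := h j hj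
    exact ⟨u, hu, i, hi, (key u i).mp h1⟩
  · intro h j hj
    obtain ⟨u, hu, i, hi, h1⟩ := h j hj
    exact ⟨sh L u, ⟨u, hu, rfl⟩, sh L i, ⟨i, hi, rfl⟩, (key u i).mpr h1⟩

theorem HQ_sh (L : ℤ) (A : Set Vtx) (J : ℕ → Set Vtx) (k : ℕ) (q : Vtx) (F : Finset Edg) :
    HQ (sh L '' A) (shJ L J) k (sh L q) (↑((trl (-L) (-1)).mp F)) ↔ HQ A J k q (↑F) := by
  have key : ∀ u v : Vtx, Reach (↑((trl (-L) (-1)).mp F) : Set Edg) (sh L u) (sh L v) ↔
      Reach (↑F : Set Edg) u v := by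
    intro u v
    rw [LSym.coe_mp, sh_eq, sh_eq, LSym.reach_iff]
  unfold HQ
  rw [HS_sh]
  apply and_congr Iff.rfl
  constructor
  · rintro ⟨u', ⟨u, hu, rfl⟩, h1⟩
    exact ⟨u, hu, (key u q).mp h1⟩
  · rintro ⟨u, hu, h1⟩
    exact ⟨sh L u, ⟨u, hu, rfl⟩, (key u q).mpr h1⟩

theorem pr_HS (L : ℤ) (A : Set Vtx) (J : ℕ → Set Vtx) (k : ℕ) (S : Finset Edg) :
    Pr P ((trl (-L) (-1)).mp S) (fun F => HS (sh L '' A) (shJ L J) k (↑F)) =
      Pr P S (fun F => HS A J k (↑F)) := by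
  change Pr (fun _ => (1 / 2 : ℝ)) _ _ = _
  rw [LSym.pr]
  apply Pr_congr
  intro F _
  exact HS_sh L A J k F

theorem pr_HQ (L : ℤ) (A : Set Vtx) (J : ℕ → Set Vtx) (k : ℕ) (q : Vtx) (S : Finset Edg) :
    Pr P ((trl (-L) (-1)).mp S) (fun F => HQ (sh L '' A) (shJ L J) k (sh L q) (↑F)) =
      Pr P S (fun F => HQ A J k q (↑F)) := by
  change Pr (fun _ => (1 / 2 : ℝ)) _ _ = _
  rw [LSym.pr]
  apply Pr_congr
  intro F _
  exact HQ_sh L A J k q F

theorem unwH (hA : ArS) : ∃ c : ℝ, 0 < c ∧ ∀ (A : Set Vtx) (J : ℕ → Set Vtx) (k n : ℕ) (q : Vtx)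
    (R : ℕ), q.2 = 1 → 1 ≤ R → (∀ u ∈ A, 3 * R ≤ sd u q) →
    (∀ j < n, (j < k ∧ ∀ i ∈ J j, 3 * R ≤ sd i q) ∨
      (∀ t : ℤ, q.1 - 3 * R ≤ t → t ≤ q.1 - R → (t, (1 : ℤ)) ∈ J j) ∨
      (∀ t : ℤ, q.1 + R ≤ t → t ≤ q.1 + 3 * R → (t, (1 : ℤ)) ∈ J j)) →
    c * PD DH (HQ A J k q) ≤ H334PI.bd R * PD DH (HS A J n) := by
  obtain ⟨K, hK, h⟩ := H334PI.aqH hA
  have k40 := k4_pos
  have K0 : 0 < K := by linarith
  refine ⟨k4 / K, by positivity, ?_⟩
  intro A J k n q R hq2 hR hAq hJ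
  have hq : q ∈ DH := by
    show (1 : ℤ) ≤ q.2
    omega
  have he : 0 < eH q R := EH_pos (by exact_mod_cast hR) (by rw [hq2]; norm_num)
  rw [← H334PI.eH_bd hq2, div_mul_eq_mul_div, div_le_iff₀ K0]
  have main : k4 * PD DH (HQ A J k q) ≤ (K * eH q R) * PD DH (HS A J n) := by
    refine PD_mul_le (fun F G h hF => HQ.mono h hF) HQ_box (fun F G h hF => HS.mono h hF) k40
      (by positivity) (q.1.natAbs + q.2.natAbs + 3 * R + 1) (fun m hm => ?_)
    have c1 := h q hq R m hR (by omega)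
    have t := unw (A := sh (-(m : ℤ)) '' A) (J := shJ (-(m : ℤ)) J) (k := k) (n := n)
      (q := sh (-(m : ℤ)) q) (R := R)
      (S := (trl (-(-(m : ℤ))) (-1)).mp (bD DH m)) (by unfold sh; simp only; omega)
      (by unfold sh; simp only; omega) hR (by
        rintro u' ⟨u, hu, rfl⟩
        rw [sd_sh]
        exact hAq u hu) (by
        intro j hj
        rcases hJ j hj with ⟨h1, h2⟩ | h1 | h1
        · left
          refine ⟨h1, ?_⟩
          rintro i' ⟨i, hi, rfl⟩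
          rw [sd_sh]
          exact h2 i hi
        · right; left
          refine ⟨by unfold sh; simp only; omega, ?_⟩
          intro t ht1 ht2
          unfold sh at ht1 ht2
          simp only at ht1 ht2
          refine ⟨_, h1 (t - m) (by omega) (by omega), ?_⟩
          unfold sh
          simp only
          rw [Prod.mk.injEq]
          constructor <;> omega
        · right; right
          intro t ht1 ht2
          unfold sh at ht1 ht2
          simp only at ht1 ht2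
          refine ⟨_, h1 (t - m) (by omega) (by omega), ?_⟩
          unfold sh
          simp only
          rw [Prod.mk.injEq]
          constructor <;> omega) (H334PI.InQ_S m) (H334PI.qb_S hq (by omega))
    rw [pr_HQ, pr_HS] at t
    refine t.trans ?_
    apply mul_le_mul_of_nonneg_right c1.l (Pr_nonneg okP _ _)
  calc k4 * PD DH (HQ A J k q) ≤ (K * eH q R) * PD DH (HS A J n) := main
    _ = _ := by ring

theorem glueH (hA : ArS) : ∃ c : ℝ, 0 < c ∧ ∀ (A : Set Vtx) (J : ℕ → Set Vtx) (k n : ℕ) (q : Vtx)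
    (R : ℕ), k ≤ n → q.2 = 1 → 1 ≤ R →
    ((∃ j < n, ∀ i ∈ J j, i ∈ DH ∧ sd i q ≤ R) ∧ ∀ u ∈ A, 3 * R ≤ sd u q) ∨
      (∀ t : ℤ, q.1 - 3 * R ≤ t → t ≤ q.1 - R → (t, (1 : ℤ)) ∈ A) →
    c * (H334PI.bd (3 * R) * PD DH (HS A J n)) ≤ PD DH (HQ A J k q) := by
  obtain ⟨K, hK, h⟩ := H334PI.aqH hA
  have k40 := k4_pos
  have K0 : 0 < K := by linarith
  refine ⟨k4 / K, by positivity, ?_⟩
  intro A J k n q R hkn hq2' hR hJ
  have hq : q ∈ DH := by
    show (1 : ℤ) ≤ q.2
    omega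
  have hq2 : (1 : ℤ) ≤ q.2 := hq
  have he : 0 < eH q (3 * R) := EH_pos (by exact_mod_cast (by omega : 0 < 3 * R)) (by
    have : (1 : ℝ) ≤ q.2 := by exact_mod_cast hq2
    linarith)
  rw [← H334PI.eH_bd hq2', div_mul_eq_mul_div, div_le_iff₀ K0]
  have main : (k4 * eH q (3 * R)) * PD DH (HS A J n) ≤ K * PD DH (HQ A J k q) := by
    refine PD_mul_le (fun F G h hF => HS.mono h hF) HS_box (fun F G h hF => HQ.mono h hF)
      (by positivity) K0.le
      (q.1.natAbs + q.2.natAbs + 3 * R + 1) (fun m hm => ?_)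
    have c1 := h q hq (3 * R) m (by omega) (by omega)
    have t := glue (A := sh (-(m : ℤ)) '' A) (J := shJ (-(m : ℤ)) J) (k := k) (n := n) hkn
      (q := sh (-(m : ℤ)) q) (R := R)
      (S := (trl (-(-(m : ℤ))) (-1)).mp (bD DH m)) (by unfold InV sh; simp only; omega)
      (by unfold sh; simp only; omega) hR (by
        rcases hJ with ⟨⟨j, hj, h1⟩, h2⟩ | h1
        · left
          refine ⟨⟨j, hj, ?_⟩, ?_⟩
          · rintro i' ⟨i, hi, rfl⟩
            obtain ⟨h3, h4⟩ := h1 i hi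
            have h3' : (1 : ℤ) ≤ i.2 := h3
            refine ⟨?_, by rw [sd_sh]; exact h4⟩
            unfold sd at h4
            unfold InV sh
            simp only
            omega
          · rintro u' ⟨u, hu, rfl⟩
            rw [sd_sh]
            exact h2 u hu
        · right
          refine ⟨by unfold sh; simp only; omega, ?_⟩
          intro t ht1 ht2
          unfold sh at ht1 ht2
          simp only at ht1 ht2
          refine ⟨_, h1 (t - m) (by omega) (by omega), ?_⟩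
          unfold sh
          simp only
          rw [Prod.mk.injEq]
          constructor <;> omega) (H334PI.InQ_S m) (H334PI.qb_S hq (by omega))
    rw [pr_HQ, pr_HS] at t
    have p0 : 0 ≤ Pr P (bD DH m) (fun F => HS A J n (↑F)) := Pr_nonneg okP _ _
    generalize Pr P (bD DH m) (fun F => HS A J n (↑F)) = w at *
    generalize Pr P (bD DH m) (fun F => HQ A J k q (↑F)) = w' at *
    generalize aq (sh (-(m : ℤ)) q) (3 * R) = a at *
    calc k4 * eH q (3 * R) * w ≤ k4 * (K * a) * w := by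
          apply mul_le_mul_of_nonneg_right _ p0
          exact mul_le_mul_of_nonneg_left c1.r k40.le
      _ = K * (k4 * a * w) := by ring
      _ ≤ K * w' := mul_le_mul_of_nonneg_left t K0.le
  calc k4 * (eH q (3 * R) * PD DH (HS A J n)) = (k4 * eH q (3 * R)) * PD DH (HS A J n) := by ring
    _ ≤ K * PD DH (HQ A J k q) := main
    _ = _ := by ring

end H334HI
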