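import Pool.Agent.H334HI.Step

/-!
Small mesh.
-/

set_option autoImplicit false

namespace H334HI
open Finset TH976
open Filter Topology

/-- the left end of the previous interval (zero for the first one) -/
def prvR (a : ℕ → ℝ) : ℕ → ℝ
  | 0 => 0
  | k + 1 => a k

theorem Cmp_prod {f g : ℕ → ℝ} {K : ℝ} {k : ℕ} (h : ∀ j < k, Cmp K (f j) (g j)) :
    Cmp (K ^ k) (∏ j ∈ range k, f j) (∏ j ∈ range k, g j) := by
  induction k with
  | zero => simpa using Cmp.refl one_pos
  | succ k ih =>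
    rw [Finset.prod_range_succ, Finset.prod_range_succ, pow_succ]
    exact (ih fun j hj => h j (by omega)).mul (h k (Nat.lt_succ_self k))

theorem mesh {P : (ℕ → ℤ) → (ℕ → ℕ) → ℕ → ℝ} {C : ℝ}
    (hP : ∀ (p : ℕ → ℤ) (l : ℕ → ℕ) (k : ℕ),
      (∀ j < k, 1 ≤ p j ∧ 1 ≤ l j) → (∀ j, j + 1 < k → p j + l j ≤ p (j + 1)) →
      Cmp (C ^ k) (P p l k)
        (∏ j ∈ range k, ((l j : ℝ) / ((p j : ℝ) + l j - prv p j)) ^ (1 / 3 : ℝ)))
    {k : ℕ} {a b : ℕ → ℝ} (ha : ∀ j < k, 0 < a j ∧ a j < b j)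
    (hab : ∀ j, j + 1 < k → b j < a (j + 1)) :
    ∀ᶠ e : ℝ in 𝓝[>] 0, ∀ (p : ℕ → ℤ) (l : ℕ → ℕ),
      (∀ j < k, |e * ((p j : ℝ) - 1 / 2) - a j| ≤ 2 * e ∧
        |e * ((p j : ℝ) + l j - 1 / 2) - b j| ≤ 2 * e) →
      Cmp ((4 * C) ^ k) (P p l k)
        (∏ j ∈ range k, ((b j - a j) / (b j - prvR a j)) ^ (1 / 3 : ℝ)) := by
  have h0 : ∀ᶠ e : ℝ in 𝓝[>] 0, 0 < e := self_mem_nhdsWithin
  have h1 : ∀ᶠ e : ℝ in 𝓝[>] 0, ∀ j ∈ range k, e < a j / 8 ∧ e < (b j - a j) / 8 := by
    rw [Finset.eventually_all]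
    intro j hj
    rw [Finset.mem_range] at hj
    obtain ⟨g1, g2⟩ := ha j hj
    have f1 : ∀ᶠ e : ℝ in 𝓝[>] 0, e < a j / 8 :=
      nhdsWithin_le_nhds (Iio_mem_nhds (by positivity))
    have f2 : ∀ᶠ e : ℝ in 𝓝[>] 0, e < (b j - a j) / 8 :=
      nhdsWithin_le_nhds (Iio_mem_nhds (by
        have : 0 < b j - a j := by linarith
        positivity))
    exact f1.and f2
  have h2 : ∀ᶠ e : ℝ in 𝓝[>] 0, ∀ j ∈ range k, j + 1 < k → e < (a (j + 1) - b j) / 8 := by
    rw [Finset.eventually_all]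
    intro j hj
    by_cases hc : j + 1 < k
    · have g := hab j hc
      have : ∀ᶠ e : ℝ in 𝓝[>] 0, e < (a (j + 1) - b j) / 8 :=
        nhdsWithin_le_nhds (Iio_mem_nhds (by
          have : 0 < a (j + 1) - b j := by linarith
          positivity))
      filter_upwards [this] with e he _
      exact he
    · exact Eventually.of_forall fun e h => absurd h hc
  filter_upwards [h0, h1, h2] with e he g1 g2 p l hpl
  have q0 : ∀ j < k, 1 ≤ p j := by
    intro j hj
    obtain ⟨t1, -⟩ := g1 j (Finset.mem_range.mpr hj)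
    obtain ⟨t3, -⟩ := hpl j hj
    rw [abs_le] at t3
    by_contra hc
    push Not at hc
    have hc' : (p j : ℝ) ≤ 0 := by exact_mod_cast (by omega : p j ≤ 0)
    have : e * (p j : ℝ) ≤ 0 := mul_nonpos_of_nonneg_of_nonpos he.le hc'
    linarith [t3.1]
  have q1 : ∀ j < k, 1 ≤ l j := by
    intro j hj
    obtain ⟨-, t2⟩ := g1 j (Finset.mem_range.mpr hj)
    obtain ⟨t3, t4⟩ := hpl j hj
    rw [abs_le] at t3 t4
    by_contra hc
    have hc' : l j = 0 := by omega
    rw [hc'] at t4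
    push_cast at t4
    linarith [t3.2, t4.1]
  have q2 : ∀ j, j + 1 < k → p j + l j ≤ p (j + 1) := by
    intro j hj
    have t1 := g2 j (Finset.mem_range.mpr (by omega)) hj
    obtain ⟨-, t4⟩ := hpl j (by omega)
    obtain ⟨t5, -⟩ := hpl (j + 1) hj
    rw [abs_le] at t4 t5
    by_contra hc
    push Not at hc
    have hc' : (p (j + 1) : ℝ) ≤ (p j : ℝ) + l j := by exact_mod_cast hc.le
    have := mul_le_mul_of_nonneg_left hc' he.le
    linarith [t4.2, t5.1]
  have t := hP p l k (fun j hj => ⟨q0 j hj, q1 j hj⟩) q2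
  have c : Cmp (4 ^ k) (∏ j ∈ range k, ((l j : ℝ) / ((p j : ℝ) + l j - prv p j)) ^ (1 / 3 : ℝ))
      (∏ j ∈ range k, ((b j - a j) / (b j - prvR a j)) ^ (1 / 3 : ℝ)) := by
    apply Cmp_prod
    intro j hj
    obtain ⟨t1, t2⟩ := g1 j (Finset.mem_range.mpr hj)
    obtain ⟨t3, t4⟩ := hpl j hj
    obtain ⟨s1, s2⟩ := ha j hj
    rw [abs_le] at t3 t4
    -- the denominators
    have den : |e * ((p j : ℝ) + l j - prv p j) - (b j - prvR a j)| ≤ 4 * e ∧
        b j - a j ≤ b j - prvR a j := by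
      cases j with
      | zero =>
        have e1 : prv p 0 = 0 := rfl
        have e2 : prvR a 0 = 0 := rfl
        rw [e1, e2]
        push_cast
        refine ⟨?_, by linarith⟩
        rw [abs_le]
        constructor <;> linarith [t4.1, t4.2]
      | succ j =>
        have e1 : prv p (j + 1) = p j := rfl
        have e2 : prvR a (j + 1) = a j := rfl
        rw [e1, e2]
        obtain ⟨t5, -⟩ := hpl j (by omega)
        obtain ⟨-, s4⟩ := ha j (by omega)
        have s5 := hab j hj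
        rw [abs_le] at t5
        refine ⟨?_, by linarith⟩
        rw [abs_le]
        constructor <;> linarith [t4.1, t4.2, t5.1, t5.2]
    obtain ⟨den1, den2⟩ := den
    rw [abs_le] at den1
    have num1 : e * (l j : ℝ) ≤ (b j - a j) * (3 / 2) := by linarith [t3.1, t4.2]
    have num2 : (b j - a j) / 2 ≤ e * (l j : ℝ) := by linarith [t3.2, t4.1]
    have den3 : e * ((p j : ℝ) + l j - prv p j) ≤ (b j - prvR a j) * (3 / 2) := by linarith
    have den4 : (b j - prvR a j) / 2 ≤ e * ((p j : ℝ) + l j - prv p j) := by linarith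
    have B0 : 0 < b j - a j := by linarith
    have B1 : 0 < b j - prvR a j := by linarith
    have L0 : 0 < (l j : ℝ) := by
      have := q1 j hj
      exact_mod_cast this
    have D0 : 0 < (p j : ℝ) + l j - prv p j := by
      have : 0 < e * ((p j : ℝ) + l j - prv p j) := by linarith
      exact pos_of_mul_pos_right this he.le
    have r1 : (l j : ℝ) / ((p j : ℝ) + l j - prv p j) ≤ 4 * ((b j - a j) / (b j - prvR a j)) := by
      rw [mul_div_assoc', div_le_div_iff₀ D0 B1]
      have h3 : (e * (l j : ℝ)) * (b j - prvR a j) ≤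
          4 * (b j - a j) * (e * ((p j : ℝ) + l j - prv p j)) := by
        calc (e * (l j : ℝ)) * (b j - prvR a j) ≤ ((b j - a j) * (3 / 2)) * (b j - prvR a j) :=
              mul_le_mul_of_nonneg_right num1 B1.le
          _ ≤ 4 * (b j - a j) * ((b j - prvR a j) / 2) := by nlinarith
          _ ≤ _ := mul_le_mul_of_nonneg_left den4 (by linarith)
      nlinarith
    have r2 : (b j - a j) / (b j - prvR a j) ≤ 4 * ((l j : ℝ) / ((p j : ℝ) + l j - prv p j)) := by
      rw [mul_div_assoc', div_le_div_iff₀ B1 D0]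
      have h3 : (b j - a j) * (e * ((p j : ℝ) + l j - prv p j)) ≤
          4 * (e * (l j : ℝ)) * (b j - prvR a j) := by
        calc (b j - a j) * (e * ((p j : ℝ) + l j - prv p j)) ≤
              (b j - a j) * ((b j - prvR a j) * (3 / 2)) := mul_le_mul_of_nonneg_left den3 B0.le
          _ ≤ (4 * ((b j - a j) / 2)) * (b j - prvR a j) := by nlinarith
          _ ≤ _ := by
              apply mul_le_mul_of_nonneg_right _ B1.le
              linarith
      nlinarith
    have x0 : 0 < (l j : ℝ) / ((p j : ℝ) + l j - prv p j) := by positivity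
    have y0 : 0 < (b j - a j) / (b j - prvR a j) := by positivity
    exact ⟨by norm_num, by positivity, by positivity,
      e2 x0.le y0.le (by norm_num) r1, e2 y0.le x0.le (by norm_num) r2⟩
  refine (t.trans c).weaken (le_of_eq ?_)
  rw [mul_pow, mul_comm]

end H334HI
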