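import Pool.Agent.H334HI.Step

/-!
The half-plane: the set of the vertices of the right half of the boundary which are connected to
the left half.
-/

set_option autoImplicit false

namespace H334HI
open Finset H974 Pool.Agent.H160R2.CV H362P TH976
open Pool.Agent.H160R2.CV.Quad Pool.Agent.H389R2.CD

/-- the same as `two`; only the last two intervals are in order -/
theorem two' (hA : ArS) : ∃ K : ℝ, 1 ≤ K ∧ ∀ (p : ℕ → ℤ) (l : ℕ → ℕ) (k : ℕ), 1 ≤ l k →
    (0 ≤ prv p k ∧ prv p k < p k ∧ 1 ≤ p k) → (∀ j < k, p j + l j ≤ p k) →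
    (∀ j j0, j < j0 → k = j0 + 1 → p j + l j ≤ p j0) →
    PD DH (HS LA (IJ p l) (k + 1)) ≤
      K * (((l k : ℝ) / ((p k : ℝ) + l k - prv p k)) ^ (1 / 3 : ℝ) *
        PD DH (HS LA (IJ p l) k)) ∧
    ((l k : ℝ) / ((p k : ℝ) + l k - prv p k)) ^ (1 / 3 : ℝ) * PD DH (HS LA (IJ p l) k) ≤
      K * PD DH (HS LA (IJ p l) (k + 1)) := by
  obtain ⟨c1, hc1, U⟩ := unwH hA
  obtain ⟨c2, hc2, G⟩ := glueH hA
  set K : ℝ := 216 / (c1 * c2) + 108 * (1 + 1 / c1) / c2 + 100 with hK
  have k1 : 0 < 216 / (c1 * c2) := by positivity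
  have k2 : 0 < 108 * (1 + 1 / c1) / c2 := by positivity
  refine ⟨K, by linarith, ?_⟩
  intro p l k hlk hprv hnext hlast
  obtain ⟨q0, q1, q2⟩ := hprv
  obtain ⟨D, hD⟩ : ∃ D : ℕ, (D : ℤ) = p k + l k - prv p k :=
    ⟨(p k + l k - prv p k).toNat, by omega⟩
  have hDr : (p k : ℝ) + l k - prv p k = D := by
    have := congrArg (Int.cast (R := ℝ)) hD
    push_cast at this
    linarith
  rw [hDr]
  have l0 : (1 : ℝ) ≤ l k := by exact_mod_cast hlk
  have D1 : (l k : ℤ) < D := by omega
  have D0 : (1 : ℝ) ≤ D := by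
    have : 1 ≤ D := by omega
    exact_mod_cast this
  have x0 : 0 ≤ PD DH (HS LA (IJ p l) k) := PD_nonneg _ _
  have x1 : 0 ≤ PD DH (HS LA (IJ p l) (k + 1)) := PD_nonneg _ _
  set ρ : ℝ := ((l k : ℝ) / D) ^ (1 / 3 : ℝ) with hρ
  have ρ0 : 0 < ρ := by positivity
  constructor
  · -- upper bound
    rcases lt_or_ge D (100 * l k) with hs | hs
    · have h1 : PD DH (HS LA (IJ p l) (k + 1)) ≤ PD DH (HS LA (IJ p l) k) :=
        H334PI.PD_mono fun F hF => hF.le (Nat.le_succ k)
      have hs' : (D : ℝ) ≤ 100 * l k := by exact_mod_cast hs.le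
      have h2 : (1 : ℝ) ≤ 100 * ρ := by
        have h3 := e2 (x := 1) (y := (l k : ℝ) / D) (C := 100) (by norm_num) (by positivity)
          (by norm_num) (by rw [mul_div_assoc', le_div_iff₀ (by linarith)]; linarith)
        rwa [Real.one_rpow] at h3
      calc PD DH (HS LA (IJ p l) (k + 1)) ≤ 1 * PD DH (HS LA (IJ p l) k) := by
            rw [one_mul]; exact h1
        _ ≤ (100 * ρ) * PD DH (HS LA (IJ p l) k) := mul_le_mul_of_nonneg_right h2 x0
        _ = 100 * (ρ * PD DH (HS LA (IJ p l) k)) := by ring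
        _ ≤ K * (ρ * PD DH (HS LA (IJ p l) k)) :=
            mul_le_mul_of_nonneg_right (by linarith) (by positivity)
    · -- long distance
      have g := G LA (IJ p l) k (k + 1) (p k, 1) (l k) (Nat.le_succ k) rfl hlk (Or.inl
        ⟨⟨k, Nat.lt_succ_self k, by
          rintro i ⟨i1, i2, i3⟩
          refine ⟨?_, ?_⟩
          · show (1 : ℤ) ≤ i.2
            omega
          · unfold sd
            simp only
            omega⟩, by
          rintro u ⟨u1, u2⟩
          unfold sd
          simp only
          omega⟩)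
      obtain ⟨R, hR1, hR2, hR3, hR4⟩ : ∃ R : ℕ, 1 ≤ R ∧ D ≤ 72 * R ∧ 36 * R ≤ 3 * D ∧
          ∀ j < k, (∀ i ∈ IJ p l j, 3 * R ≤ sd i ((p k, 1) : Vtx)) ∨
            (∀ t : ℤ, p k - 3 * R ≤ t → t ≤ p k - R → (t, (1 : ℤ)) ∈ IJ p l j) := by
        by_cases hc : ∃ j, j + 1 = k ∧ p k - ((D / 12 : ℕ) : ℤ) ≤ p j + l j - 1
        · obtain ⟨j0, hj0, hc⟩ := hc
          refine ⟨D / 12, by omega, by omega, by omega, ?_⟩
          intro j hj
          rcases Nat.lt_or_ge j j0 with h | h
          · left
            rintro i ⟨i1, i2, i3⟩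
            have h1 : p j + l j ≤ p j0 := hlast j j0 h hj0.symm
            have h2 : prv p k = p j0 := by rw [← hj0]; rfl
            unfold sd
            simp only
            omega
          · have hj' : j = j0 := by omega
            subst hj'
            have h2 : prv p k = p j := by rw [← hj0]; rfl
            right
            intro t ht1 ht2
            refine ⟨rfl, ?_, ?_⟩
            · show p j ≤ t
              omega
            · show t < p j + l j
              omega
        · push Not at hc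
          refine ⟨D / 12 / 3, by omega, by omega, by omega, ?_⟩
          intro j hj
          left
          rintro i ⟨i1, i2, i3⟩
          rcases Nat.lt_or_ge (j + 1) k with h | h
          · obtain ⟨j0, rfl⟩ : ∃ j0, k = j0 + 1 := ⟨k - 1, by omega⟩
            have h1 : p j + l j ≤ p j0 := hlast j j0 (by omega) rfl
            have h2 : prv p (j0 + 1) = p j0 := rfl
            unfold sd
            simp only
            omega
          · have h1 := hc j (by omega)
            unfold sd
            simp only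
            omega
      have u := U LA (IJ p l) k k (p k, 1) R rfl hR1 (by
        rintro u ⟨u1, u2⟩
        unfold sd
        simp only
        omega) (by
        intro j hj
        rcases hR4 j hj with h | h
        · exact Or.inl ⟨hj, h⟩
        · exact Or.inr (Or.inl h))
      have b1 : H334PI.bd R ≤ 216 * (ρ * H334PI.bd (3 * l k)) := by
        rw [H334PI.bd_eq hR1, H334PI.bd_eq (show 1 ≤ 3 * l k by omega), hρ,
          e1 (by positivity) (by positivity)]
        have R0 : (1 : ℝ) ≤ R := by exact_mod_cast hR1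
        have := e2 (x := 1 / (R : ℝ)) (y := (l k : ℝ) / D / ((3 * l k : ℕ) : ℝ)) (C := 216)
          (by positivity) (by positivity) (by norm_num) (by
            have hRD : (D : ℝ) ≤ 72 * R := by exact_mod_cast hR2
            push_cast
            have e : (216 : ℝ) * ((l k : ℝ) / D / (3 * l k)) = 72 / D := by
              field_simp
              norm_num
            rw [e, div_le_div_iff₀ (by linarith) (by linarith)]
            linarith)
        rw [Real.div_rpow (by norm_num) (by linarith), Real.one_rpow, one_div,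
          ← Real.rpow_neg (by linarith)] at this
        exact this
      have b2 : 0 < H334PI.bd (3 * l k) := by
        rw [H334PI.bd_eq (show 1 ≤ 3 * l k by omega)]
        have : (0 : ℝ) < ((3 * l k : ℕ) : ℝ) := by
          have : 0 < 3 * l k := by omega
          exact_mod_cast this
        positivity
      generalize PD DH (HS LA (IJ p l) (k + 1)) = X1 at *
      generalize PD DH (HS LA (IJ p l) k) = X0 at *
      generalize PD DH (HQ LA (IJ p l) k (p k, 1)) = Y at *
      generalize H334PI.bd (3 * l k) = B at *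
      have t1 : c1 * (c2 * (B * X1)) ≤ 216 * (ρ * B) * X0 :=
        (mul_le_mul_of_nonneg_left g hc1.le).trans (u.trans (mul_le_mul_of_nonneg_right b1 x0))
      have t2 : X1 ≤ 216 / (c1 * c2) * (ρ * X0) := by
        rw [div_mul_eq_mul_div, le_div_iff₀ (by positivity)]
        have t3 : (X1 * (c1 * c2)) * B ≤ (216 * (ρ * X0)) * B := by
          calc (X1 * (c1 * c2)) * B = c1 * (c2 * (B * X1)) := by ring
            _ ≤ 216 * (ρ * B) * X0 := t1
            _ = _ := by ring
        exact le_of_mul_le_mul_right t3 b2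
      refine t2.trans (mul_le_mul_of_nonneg_right (by linarith) (by positivity))
  · -- lower bound
    obtain ⟨R1, q, hR1, hR2, hq, hq1, hq2, hstep⟩ : ∃ (R1 : ℕ) (q : ℤ), 1 ≤ R1 ∧ l k ≤ 12 * R1 ∧
        True ∧ p k ≤ q ∧ q < p k + l k ∧
        PD DH (HQ LA (IJ p l) k (q, 1)) ≤ (1 + 1 / c1) * (H334PI.bd R1 *
          PD DH (HS LA (IJ p l) (k + 1))) := by
      rcases lt_or_ge (l k) 7 with h7 | h7
      · refine ⟨1, p k, le_rfl, by omega, trivial, le_rfl, by omega, ?_⟩
        have h1 : PD DH (HQ LA (IJ p l) k (p k, 1)) ≤ PD DH (HS LA (IJ p l) (k + 1)) := by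
          apply H334PI.PD_mono
          rintro F ⟨h1, u, hu, h2⟩ j hj
          rcases Nat.lt_succ_iff_lt_or_eq.mp hj with h3 | rfl
          · exact h1 j h3
          · refine ⟨u, hu, (p j, 1), ⟨rfl, le_rfl, ?_⟩, h2⟩
            show p j < p j + l j
            omega
        have h2 : H334PI.bd 1 = 1 := by
          rw [H334PI.bd_eq le_rfl, Nat.cast_one, Real.one_rpow]
        rw [h2, one_mul]
        have : 0 < 1 / c1 := by positivity
        nlinarith
      · refine ⟨(l k - 1) / 6, p k + 3 * (((l k - 1) / 6 : ℕ) : ℤ), by omega, by omega, trivial,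
          by omega, by omega, ?_⟩
        have u := U LA (IJ p l) k (k + 1) (p k + 3 * (((l k - 1) / 6 : ℕ) : ℤ), 1)
          ((l k - 1) / 6) rfl (by omega) (by
            rintro u ⟨u1, u2⟩
            unfold sd
            simp only
            omega) (by
            intro j hj
            rcases Nat.lt_succ_iff_lt_or_eq.mp hj with h3 | rfl
            · left
              refine ⟨h3, ?_⟩
              rintro i ⟨i1, i2, i3⟩
              have h4 := hnext j h3
              unfold sd
              simp only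
              omega
            · right; right
              intro t ht1 ht2
              simp only at ht1 ht2
              refine ⟨rfl, ?_, ?_⟩
              · show p j ≤ t
                omega
              · show t < p j + l j
                omega)
        have b0 : 0 ≤ H334PI.bd ((l k - 1) / 6) * PD DH (HS LA (IJ p l) (k + 1)) := by
          apply mul_nonneg _ x1
          rw [H334PI.bd_eq (show 1 ≤ (l k - 1) / 6 by omega)]
          positivity
        generalize H334PI.bd ((l k - 1) / 6) * PD DH (HS LA (IJ p l) (k + 1)) = Z at *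
        generalize PD DH (HQ LA (IJ p l) k (p k + 3 * (((l k - 1) / 6 : ℕ) : ℤ), 1)) = Y at *
        have h1 : Y ≤ 1 / c1 * Z := by
          rw [div_mul_eq_mul_div, one_mul, le_div_iff₀ hc1, mul_comm]
          exact u
        linarith
    obtain ⟨N, hN1, hN2, hg⟩ : ∃ N : ℕ, 1 ≤ N ∧ N ≤ 9 * D ∧
        c2 * (H334PI.bd N * PD DH (HS LA (IJ p l) k)) ≤ PD DH (HQ LA (IJ p l) k (q, 1)) := by
      rcases lt_or_ge q (3 * (D : ℤ)) with h3 | h3
      · refine ⟨3 * (3 * D), by omega, by omega, ?_⟩
        refine G LA (IJ p l) k k (q, 1) (3 * D) le_rfl rfl (by omega) (Or.inr ?_)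
        intro t ht1 ht2
        simp only at ht2
        refine ⟨rfl, ?_⟩
        show t ≤ 0
        push_cast at ht2
        omega
      · obtain ⟨j0, rfl⟩ : ∃ j0, k = j0 + 1 := by
          cases k with
          | zero =>
            have : prv p 0 = 0 := rfl
            omega
          | succ j0 => exact ⟨j0, rfl⟩
        have h2 : prv p (j0 + 1) = p j0 := rfl
        have h4 := hnext j0 (Nat.lt_succ_self j0)
        refine ⟨3 * D, by omega, by omega, ?_⟩
        refine G LA (IJ p l) (j0 + 1) (j0 + 1) (q, 1) D le_rfl rfl (by omega) (Or.inl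
          ⟨⟨j0, Nat.lt_succ_self j0, ?_⟩, ?_⟩)
        · rintro i ⟨i1, i2, i3⟩
          refine ⟨?_, ?_⟩
          · show (1 : ℤ) ≤ i.2
            omega
          · unfold sd
            simp only
            omega
        · rintro u ⟨u1, u2⟩
          unfold sd
          simp only
          omega
    have b1 : ρ * H334PI.bd R1 ≤ 108 * H334PI.bd N := by
      rw [H334PI.bd_eq hR1, H334PI.bd_eq hN1, hρ]
      have R0 : (1 : ℝ) ≤ R1 := by exact_mod_cast hR1
      have N0 : (1 : ℝ) ≤ N := by exact_mod_cast hN1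
      rw [e1 (by positivity) (by positivity)]
      have := e2 (x := (l k : ℝ) / D / R1) (y := 1 / (N : ℝ)) (C := 108)
        (by positivity) (by positivity) (by norm_num) (by
          have hR' : (l k : ℝ) ≤ 12 * R1 := by exact_mod_cast hR2
          have hN' : (N : ℝ) ≤ 9 * D := by exact_mod_cast hN2
          rw [div_div, mul_div_assoc', mul_one, div_le_div_iff₀ (by positivity) (by linarith)]
          calc (l k : ℝ) * N ≤ (12 * R1) * (9 * D) :=
                mul_le_mul hR' hN' (by linarith) (by positivity)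
            _ = 108 * (D * R1) := by ring)
      refine this.trans (le_of_eq ?_)
      rw [Real.div_rpow (by norm_num) (by linarith), Real.one_rpow, one_div,
        ← Real.rpow_neg (by linarith)]
    have b2 : 0 < H334PI.bd R1 := by
      rw [H334PI.bd_eq hR1]
      have : (0 : ℝ) < R1 := by exact_mod_cast hR1
      positivity
    generalize PD DH (HS LA (IJ p l) (k + 1)) = X1 at *
    generalize PD DH (HS LA (IJ p l) k) = X0 at *
    generalize PD DH (HQ LA (IJ p l) k (q, 1)) = Y at *
    generalize H334PI.bd R1 = B at *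
    generalize H334PI.bd N = BN at *
    have t2 : ρ * X0 ≤ 108 * (1 + 1 / c1) / c2 * X1 := by
      rw [div_mul_eq_mul_div, le_div_iff₀ hc2]
      have t3 : (ρ * X0 * c2) * B ≤ (108 * (1 + 1 / c1) * X1) * B := by
        calc (ρ * X0 * c2) * B = (ρ * B) * (X0 * c2) := by ring
          _ ≤ (108 * BN) * (X0 * c2) := mul_le_mul_of_nonneg_right b1 (by positivity)
          _ = 108 * (c2 * (BN * X0)) := by ring
          _ ≤ 108 * ((1 + 1 / c1) * (B * X1)) :=
              mul_le_mul_of_nonneg_left (hg.trans hstep) (by norm_num)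
          _ = _ := by ring
      exact le_of_mul_le_mul_right t3 b2
    refine t2.trans (mul_le_mul_of_nonneg_right (by linarith) x1)


/-- the boundary vertices `i + 1`, `i ∈ S`, are connected to the left half-line -/
def WS (S : Finset ℕ) (F : Set Edg) : Prop := ∀ i ∈ S, ∃ u ∈ LA, Reach F u ((i : ℤ) + 1, 1)

noncomputable def vv (d : ℕ) : ℝ := (1 / ((d : ℝ) + 1)) ^ (1 / 3 : ℝ)

theorem HS_one {p : ℕ → ℤ} {k : ℕ} {F : Set Edg} :
    HS LA (IJ p (fun _ => 1)) k F ↔ ∀ j < k, ∃ u ∈ LA, Reach F u (p j, 1) := by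
  constructor
  · intro h j hj
    obtain ⟨u, hu, i, ⟨h1, h2, h3⟩, h4⟩ := h j hj
    have e : i = (p j, 1) := by
      apply Prod.ext
      · simp only at h3 ⊢
        omega
      · exact h1
    rw [e] at h4
    exact ⟨u, hu, h4⟩
  · intro h j hj
    obtain ⟨u, hu, h4⟩ := h j hj
    refine ⟨u, hu, (p j, 1), ⟨rfl, le_rfl, ?_⟩, h4⟩
    show p j < p j + ((1 : ℕ) : ℤ)
    omega

/-- a listing of `S`, followed by `m'`, `m` -/
noncomputable def lst (S : Finset ℕ) (m' m : ℕ) (j : ℕ) : ℤ :=
  if h : j < S.card then ((S.equivFin.symm ⟨j, h⟩ : ℕ) : ℤ) + 1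
  else if j = S.card then (m' : ℤ) + 1 else (m : ℤ) + 1

theorem lst_lt {S : Finset ℕ} {m' m j : ℕ} (h : j < S.card) :
    lst S m' m j = ((S.equivFin.symm ⟨j, h⟩ : ℕ) : ℤ) + 1 := by
  unfold lst
  rw [dif_pos h]

theorem lst_eq {S : Finset ℕ} {m' m : ℕ} : lst S m' m S.card = (m' : ℤ) + 1 := by
  unfold lst
  rw [dif_neg (lt_irrefl _), if_pos rfl]

theorem lst_gt {S : Finset ℕ} {m' m : ℕ} : lst S m' m (S.card + 1) = (m : ℤ) + 1 := by
  unfold lst
  rw [dif_neg (by omega), if_neg (by omega)]

theorem WS_one {S : Finset ℕ} {m' m : ℕ} {F : Set Edg} :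
    HS LA (IJ (lst S m' m) (fun _ => 1)) (S.card + 1) F ↔ WS (insert m' S) F := by
  rw [HS_one]
  constructor
  · intro h i hi
    rcases Finset.mem_insert.mp hi with rfl | hi
    · have := h S.card (Nat.lt_succ_self _)
      rwa [lst_eq] at this
    · have := h (S.equivFin ⟨i, hi⟩) (by have := (S.equivFin ⟨i, hi⟩).2; omega)
      rw [lst_lt (S.equivFin ⟨i, hi⟩).2] at this
      simpa using this
  · intro h j hj
    rcases Nat.lt_succ_iff_lt_or_eq.mp hj with h1 | rfl
    · rw [lst_lt h1]
      exact h _ (Finset.mem_insert_of_mem (S.equivFin.symm ⟨j, h1⟩).2)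
    · rw [lst_eq]
      exact h _ (Finset.mem_insert_self _ _)

theorem WS_two {S : Finset ℕ} {m' m : ℕ} {F : Set Edg} :
    HS LA (IJ (lst S m' m) (fun _ => 1)) (S.card + 1 + 1) F ↔
      WS (insert m (insert m' S)) F := by
  have e := WS_one (S := S) (m' := m') (m := m) (F := F)
  rw [HS_one] at e ⊢
  constructor
  · intro h i hi
    rcases Finset.mem_insert.mp hi with rfl | hi
    · have := h (S.card + 1) (Nat.lt_succ_self _)
      rwa [lst_gt] at this
    · exact e.mp (fun j hj => h j (by omega)) i hi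
  · intro h j hj
    rcases Nat.lt_succ_iff_lt_or_eq.mp hj with h1 | rfl
    · exact e.mpr (fun i hi => h i (Finset.mem_insert_of_mem hi)) j h1
    · rw [lst_gt]
      exact h _ (Finset.mem_insert_self _ _)

theorem ratio (hA : ArS) : ∃ K : ℝ, 1 ≤ K ∧
    (∀ m : ℕ, PD DH (WS {m}) ≤ K * vv (m + 1) ∧ vv (m + 1) ≤ K * PD DH (WS {m})) ∧
    ∀ (S : Finset ℕ) (m' m : ℕ), S ⊆ range m' → m' < m →
      PD DH (WS (insert m (insert m' S))) ≤ K * (vv (m - m') * PD DH (WS (insert m' S))) ∧
      vv (m - m') * PD DH (WS (insert m' S)) ≤ K * PD DH (WS (insert m (insert m' S))) := by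
  obtain ⟨K, hK, h⟩ := two' hA
  refine ⟨K, hK, ?_, ?_⟩
  · intro m
    have t := h (fun _ => (m : ℤ) + 1) (fun _ => 1) 0 le_rfl
      ⟨le_rfl, by show (0 : ℤ) < (m : ℤ) + 1; omega, by show (1 : ℤ) ≤ (m : ℤ) + 1; omega⟩
      (fun j hj => absurd hj (Nat.not_lt_zero j)) (fun j j0 _ h => absurd h (by omega))
    have e0 : PD DH (HS LA (IJ (fun _ => (m : ℤ) + 1) (fun _ => 1)) 0) = 1 := PD_zero _ _
    have e1 : PD DH (HS LA (IJ (fun _ => (m : ℤ) + 1) (fun _ => 1)) (0 + 1)) =
        PD DH (WS {m}) := by
      congr 1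
      funext F
      apply propext
      rw [HS_one]
      constructor
      · intro h i hi
        rw [Finset.mem_singleton] at hi
        rw [hi]
        exact h 0 (by omega)
      · intro h j _
        exact h m (Finset.mem_singleton_self m)
    have e2 : (((fun _ => 1 : ℕ → ℕ) 0 : ℕ) : ℝ) / ((((fun _ => (m : ℤ) + 1 : ℕ → ℤ) 0 : ℤ) : ℝ) +
        (((fun _ => 1 : ℕ → ℕ) 0 : ℕ) : ℝ) - (prv (fun _ => (m : ℤ) + 1) 0 : ℤ)) =
        1 / (((m + 1 : ℕ) : ℝ) + 1) := by
      have : prv (fun _ => (m : ℤ) + 1) 0 = 0 := rfl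
      rw [this]
      push_cast
      ring
    rw [e0, e1, e2, mul_one] at t
    exact t
  · intro S m' m hS hm
    have hS' : ∀ j, ∀ h : j < S.card, (S.equivFin.symm ⟨j, h⟩ : ℕ) < m' := fun j h =>
      Finset.mem_range.mp (hS (S.equivFin.symm ⟨j, h⟩).2)
    have t := h (lst S m' m) (fun _ => 1) (S.card + 1) le_rfl (by
      have e : prv (lst S m' m) (S.card + 1) = lst S m' m S.card := rfl
      rw [e, lst_eq, lst_gt]
      omega) (by
      intro j hj
      rw [lst_gt]
      rcases Nat.lt_succ_iff_lt_or_eq.mp hj with h1 | rfl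
      · rw [lst_lt h1]
        have := hS' j h1
        push_cast
        omega
      · rw [lst_eq]
        push_cast
        omega) (by
      intro j j0 h1 h2
      have h3 : j0 = S.card := by omega
      subst h3
      rw [lst_eq, lst_lt h1]
      have := hS' j h1
      push_cast
      omega)
    have e1 : PD DH (HS LA (IJ (lst S m' m) (fun _ => 1)) (S.card + 1)) =
        PD DH (WS (insert m' S)) := by
      congr 1
      funext F
      exact propext WS_one
    have e2 : PD DH (HS LA (IJ (lst S m' m) (fun _ => 1)) (S.card + 1 + 1)) =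
        PD DH (WS (insert m (insert m' S))) := by
      congr 1
      funext F
      exact propext WS_two
    have e3 : (((fun _ => 1 : ℕ → ℕ) (S.card + 1) : ℕ) : ℝ) / ((lst S m' m (S.card + 1) : ℝ) +
        (((fun _ => 1 : ℕ → ℕ) (S.card + 1) : ℕ) : ℝ) - (prv (lst S m' m) (S.card + 1) : ℤ)) =
        1 / (((m - m' : ℕ) : ℝ) + 1) := by
      have e : prv (lst S m' m) (S.card + 1) = lst S m' m S.card := rfl
      rw [e, lst_eq, lst_gt, Nat.cast_sub hm.le]
      push_cast
      ring
    rw [e1, e2, e3] at t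
    exact t

end H334HI
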