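import Mathlib

/-!
Sums over finite sets of natural numbers of weights with a renewal structure.
-/

set_option autoImplicit false

namespace H334HI
open Finset

noncomputable def vr (d : ℕ) : ℝ := (1 / ((d : ℝ) + 1)) ^ (1 / 3 : ℝ)

theorem vr_pos (d : ℕ) : 0 < vr d := by unfold vr; positivity

theorem vr_anti {d e : ℕ} (h : d ≤ e) : vr e ≤ vr d := by
  unfold vr
  apply Real.rpow_le_rpow (by positivity) _ (by norm_num)
  apply one_div_le_one_div_of_le (by positivity)
  have : (d : ℝ) ≤ e := by exact_mod_cast h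
  linarith

/-- decomposition according to the largest element -/
theorem decomp (f : Finset ℕ → ℝ) (k n : ℕ) :
    ∑ S ∈ powersetCard (k + 1) (range n), f S =
      ∑ m ∈ range n, ∑ S ∈ powersetCard k (range m), f (insert m S) := by
  induction n with
  | zero =>
    rw [Finset.range_zero, Finset.sum_empty, Finset.powersetCard_eq_empty.mpr (by simp),
      Finset.sum_empty]
  | succ n ih =>
    rw [Finset.sum_range_succ, ← ih, Finset.range_add_one,
      Finset.powersetCard_succ_insert Finset.notMem_range_self, Finset.sum_union, Finset.sum_image]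
    · intro S hS T hT h
      rw [Finset.mem_coe, Finset.mem_powersetCard] at hS hT
      have h1 : n ∉ S := fun h => Finset.notMem_range_self (hS.1 h)
      have h2 : n ∉ T := fun h => Finset.notMem_range_self (hT.1 h)
      rw [← Finset.erase_insert h1, h, Finset.erase_insert h2]
    · rw [Finset.disjoint_left]
      intro S hS hS'
      obtain ⟨T, hT, rfl⟩ := Finset.mem_image.mp hS'
      rw [Finset.mem_powersetCard] at hS
      exact Finset.notMem_range_self (hS.1 (Finset.mem_insert_self n T))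

theorem sum_vr (L : ℕ) : ∑ d ∈ range L, vr d ≤ 3 / 2 * (L : ℝ) ^ (2 / 3 : ℝ) := by
  induction L with
  | zero => simp
  | succ L ih =>
    rw [Finset.sum_range_succ]
    have L0 : (0 : ℝ) ≤ L := by positivity
    have h1 := Real.geom_mean_le_arith_mean2_weighted (w₁ := 2 / 3) (w₂ := 1 / 3)
      (p₁ := (L : ℝ)) (p₂ := (L : ℝ) + 1) (by norm_num) (by norm_num) L0 (by positivity)
      (by norm_num)
    have a0 : (0 : ℝ) < (L : ℝ) + 1 := by positivity
    have e1 : vr L = (((L : ℝ) + 1) ^ (1 / 3 : ℝ))⁻¹ := by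
      unfold vr
      rw [Real.div_rpow (by norm_num) a0.le, Real.one_rpow, one_div]
    have e2 : ((L : ℝ) + 1) ^ (2 / 3 : ℝ) = ((L : ℝ) + 1) * (((L : ℝ) + 1) ^ (1 / 3 : ℝ))⁻¹ := by
      rw [← Real.rpow_neg a0.le]
      nth_rewrite 2 [← Real.rpow_one ((L : ℝ) + 1)]
      rw [← Real.rpow_add a0]
      norm_num
    push_cast
    rw [e1, e2]
    have b0 : 0 < ((L : ℝ) + 1) ^ (1 / 3 : ℝ) := by positivity
    generalize ((L : ℝ) + 1) ^ (1 / 3 : ℝ) = b at *
    generalize (L : ℝ) ^ (2 / 3 : ℝ) = c at *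
    have h2 : c ≤ ((L : ℝ) + 1 / 3) * b⁻¹ := by
      rw [← div_eq_mul_inv, le_div_iff₀ b0]
      linarith
    have h3 : 3 / 2 * c ≤ 3 / 2 * (((L : ℝ) + 1 / 3) * b⁻¹) :=
      mul_le_mul_of_nonneg_left h2 (by norm_num)
    calc ∑ d ∈ range L, vr d + b⁻¹ ≤ 3 / 2 * (((L : ℝ) + 1 / 3) * b⁻¹) + b⁻¹ := by linarith
      _ = 3 / 2 * (((L : ℝ) + 1) * b⁻¹) := by ring

/-- the generating sum -/
theorem G_le {L : ℕ} (hL : 1 ≤ L) (n : ℕ) :
    ∑ d ∈ range n, ((L : ℝ) / (L + 1)) ^ d * vr d ≤ 4 * (L : ℝ) ^ (2 / 3 : ℝ) := by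
  have L0 : (1 : ℝ) ≤ L := by exact_mod_cast hL
  have L0' : (0 : ℝ) < L := by linarith
  set x : ℝ := (L : ℝ) / (L + 1) with hx
  have x0 : 0 < x := by positivity
  have x1 : x < 1 := by
    rw [hx, div_lt_one (by positivity)]
    linarith
  have hpt : ∀ d ∈ range n, x ^ d * vr d ≤ (if d < L then vr d else 0) +
      x ^ d * (1 / (L : ℝ)) ^ (1 / 3 : ℝ) := by
    intro d _
    by_cases hd : d < L
    · rw [if_pos hd]
      have h1 : x ^ d ≤ 1 := pow_le_one₀ x0.le x1.le
      have h2 : x ^ d * vr d ≤ 1 * vr d := mul_le_mul_of_nonneg_right h1 (vr_pos d).le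
      have h3 : 0 ≤ x ^ d * (1 / (L : ℝ)) ^ (1 / 3 : ℝ) := by positivity
      linarith
    · rw [if_neg hd, zero_add]
      apply mul_le_mul_of_nonneg_left _ (by positivity)
      unfold vr
      apply Real.rpow_le_rpow (by positivity) _ (by norm_num)
      apply one_div_le_one_div_of_le L0'
      have : (L : ℝ) ≤ d := by exact_mod_cast (by omega : L ≤ d)
      linarith
  have h1 : ∑ d ∈ range n, (if d < L then vr d else 0) ≤ ∑ d ∈ range L, vr d := by
    rw [← Finset.sum_filter]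
    apply Finset.sum_le_sum_of_subset_of_nonneg
    · intro d hd
      rw [Finset.mem_filter] at hd
      exact Finset.mem_range.mpr hd.2
    · intro d _ _
      exact (vr_pos d).le
  have h2 : ∑ d ∈ range n, x ^ d ≤ (L : ℝ) + 1 := by
    have e : (L : ℝ) + 1 = (1 - x)⁻¹ := by
      rw [hx]
      field_simp
      ring
    rw [e, ← tsum_geometric_of_lt_one x0.le x1]
    exact (summable_geometric_of_lt_one x0.le x1).sum_le_tsum _ fun k _ => by positivity
  have e3 : (L : ℝ) * (1 / (L : ℝ)) ^ (1 / 3 : ℝ) = (L : ℝ) ^ (2 / 3 : ℝ) := by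
    rw [Real.div_rpow (by norm_num) L0'.le, Real.one_rpow, one_div, ← Real.rpow_neg L0'.le]
    nth_rewrite 1 [← Real.rpow_one (L : ℝ)]
    rw [← Real.rpow_add L0']
    norm_num
  calc ∑ d ∈ range n, x ^ d * vr d ≤ ∑ d ∈ range n, ((if d < L then vr d else 0) +
        x ^ d * (1 / (L : ℝ)) ^ (1 / 3 : ℝ)) := Finset.sum_le_sum hpt
    _ = ∑ d ∈ range n, (if d < L then vr d else 0) +
        (∑ d ∈ range n, x ^ d) * (1 / (L : ℝ)) ^ (1 / 3 : ℝ) := by
        rw [Finset.sum_add_distrib, Finset.sum_mul]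
    _ ≤ 3 / 2 * (L : ℝ) ^ (2 / 3 : ℝ) + (2 * L) * (1 / (L : ℝ)) ^ (1 / 3 : ℝ) := by
        apply add_le_add (h1.trans (sum_vr L))
        apply mul_le_mul_of_nonneg_right _ (by positivity)
        linarith
    _ = 3 / 2 * (L : ℝ) ^ (2 / 3 : ℝ) + 2 * (L : ℝ) ^ (2 / 3 : ℝ) := by
        rw [mul_assoc, e3]
    _ ≤ 4 * (L : ℝ) ^ (2 / 3 : ℝ) := by
        have : 0 ≤ (L : ℝ) ^ (2 / 3 : ℝ) := by positivity
        linarith

/-- exchange of the order -/
theorem exch (F : ℕ → ℕ → ℝ) (n : ℕ) :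
    ∑ m ∈ range n, ∑ m' ∈ range m, F m' m = ∑ m' ∈ range n, ∑ m ∈ Ico (m' + 1) n, F m' m := by
  apply Finset.sum_comm'
  intro m m'
  simp only [Finset.mem_range, Finset.mem_Ico]
  omega

section main

variable {R : Finset ℕ → ℝ} {K : ℝ}

/-- the sum with a given largest element -/
noncomputable def YY (R : Finset ℕ → ℝ) (k m : ℕ) : ℝ :=
  ∑ S ∈ powersetCard k (range m), R (insert m S)

/-- the full sum -/
noncomputable def MM (R : Finset ℕ → ℝ) (k n : ℕ) : ℝ := ∑ S ∈ powersetCard k (range n), R S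

theorem YY_nonneg (h0 : ∀ S, 0 ≤ R S) (k m : ℕ) : 0 ≤ YY R k m :=
  Finset.sum_nonneg fun S _ => h0 _

theorem YY_zero (m : ℕ) : YY R 0 m = R {m} := by
  unfold YY
  rw [Finset.powersetCard_zero, Finset.sum_singleton]
  rfl

theorem MM_succ (k n : ℕ) : MM R (k + 1) n = ∑ m ∈ range n, YY R k m := decomp R k n

theorem YY_up (hr : ∀ (S : Finset ℕ) (m' m : ℕ), S ⊆ range m' → m' < m →
      R (insert m (insert m' S)) ≤ K * (vr (m - m') * R (insert m' S))) (k m : ℕ) :
    YY R (k + 1) m ≤ K * ∑ m' ∈ range m, vr (m - m') * YY R k m' := by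
  unfold YY
  rw [decomp (fun S => R (insert m S)), Finset.mul_sum]
  apply Finset.sum_le_sum
  intro m' hm'
  rw [Finset.mul_sum, Finset.mul_sum]
  apply Finset.sum_le_sum
  intro S hS
  rw [Finset.mem_powersetCard] at hS
  exact hr S m' m hS.1 (Finset.mem_range.mp hm')

theorem YY_low (hr : ∀ (S : Finset ℕ) (m' m : ℕ), S ⊆ range m' → m' < m →
      vr (m - m') * R (insert m' S) ≤ K * R (insert m (insert m' S))) (k m : ℕ) :
    ∑ m' ∈ range m, vr (m - m') * YY R k m' ≤ K * YY R (k + 1) m := by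
  unfold YY
  rw [decomp (fun S => R (insert m S)), Finset.mul_sum]
  apply Finset.sum_le_sum
  intro m' hm'
  rw [Finset.mul_sum, Finset.mul_sum]
  apply Finset.sum_le_sum
  intro S hS
  rw [Finset.mem_powersetCard] at hS
  exact hr S m' m hS.1 (Finset.mem_range.mp hm')

theorem A_up (h0 : ∀ S, 0 ≤ R S) (hK : 1 ≤ K) (hb : ∀ m, R {m} ≤ K * vr (m + 1))
    (hr : ∀ (S : Finset ℕ) (m' m : ℕ), S ⊆ range m' → m' < m →
      R (insert m (insert m' S)) ≤ K * (vr (m - m') * R (insert m' S)))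
    {x : ℝ} (hx : 0 < x) (n : ℕ) {G : ℝ} (hG : ∑ d ∈ range n, x ^ d * vr d ≤ G) (k : ℕ) :
    ∑ m ∈ range n, x ^ m * YY R k m ≤ (K * G) ^ (k + 1) := by
  have K0 : 0 < K := by linarith
  have G0 : 0 ≤ G := by
    refine le_trans (Finset.sum_nonneg fun d _ => ?_) hG
    have := vr_pos d
    positivity
  induction k with
  | zero =>
    rw [zero_add, pow_one]
    calc ∑ m ∈ range n, x ^ m * YY R 0 m ≤ ∑ m ∈ range n, K * (x ^ m * vr m) := by
          apply Finset.sum_le_sum
          intro m _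
          rw [YY_zero]
          have h1 : R {m} ≤ K * vr m :=
            (hb m).trans (mul_le_mul_of_nonneg_left (vr_anti (Nat.le_succ m)) K0.le)
          calc x ^ m * R {m} ≤ x ^ m * (K * vr m) := mul_le_mul_of_nonneg_left h1 (by positivity)
            _ = _ := by ring
      _ = K * ∑ m ∈ range n, x ^ m * vr m := by rw [Finset.mul_sum]
      _ ≤ K * G := mul_le_mul_of_nonneg_left hG K0.le
  | succ k ih =>
    calc ∑ m ∈ range n, x ^ m * YY R (k + 1) m
        ≤ ∑ m ∈ range n, K * ∑ m' ∈ range m, (x ^ (m - m') * vr (m - m')) * (x ^ m' * YY R k m') := by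
          apply Finset.sum_le_sum
          intro m _
          refine (mul_le_mul_of_nonneg_left (YY_up hr k m) (by positivity)).trans (le_of_eq ?_)
          rw [Finset.mul_sum, Finset.mul_sum, Finset.mul_sum]
          apply Finset.sum_congr rfl
          intro m' hm'
          rw [Finset.mem_range] at hm'
          have e : x ^ m = x ^ (m - m') * x ^ m' := by
            rw [← pow_add]
            congr 1
            omega
          rw [e]
          ring
      _ = K * ∑ m' ∈ range n, (∑ m ∈ Ico (m' + 1) n, x ^ (m - m') * vr (m - m')) *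
            (x ^ m' * YY R k m') := by
          rw [← Finset.mul_sum, exch (fun m' m => (x ^ (m - m') * vr (m - m')) * (x ^ m' * YY R k m'))]
          congr 1
          apply Finset.sum_congr rfl
          intro m' _
          rw [Finset.sum_mul]
      _ ≤ K * ∑ m' ∈ range n, G * (x ^ m' * YY R k m') := by
          apply mul_le_mul_of_nonneg_left _ K0.le
          apply Finset.sum_le_sum
          intro m' hm'
          rw [Finset.mem_range] at hm'
          apply mul_le_mul_of_nonneg_right _ (mul_nonneg (by positivity) (YY_nonneg h0 k m'))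
          refine le_trans ?_ hG
          rw [Finset.sum_Ico_eq_sum_range]
          have e1 : ∑ i ∈ range (n - (m' + 1)), x ^ (m' + 1 + i - m') * vr (m' + 1 + i - m') =
              ∑ i ∈ range (n - (m' + 1)), x ^ (i + 1) * vr (i + 1) := by
            apply Finset.sum_congr rfl
            intro i _
            have : m' + 1 + i - m' = i + 1 := by omega
            rw [this]
          rw [e1]
          have e2 := Finset.sum_range_succ' (fun d => x ^ d * vr d) (n - (m' + 1))
          have e3 : ∑ i ∈ range (n - (m' + 1)), x ^ (i + 1) * vr (i + 1) ≤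
              ∑ d ∈ range (n - (m' + 1) + 1), x ^ d * vr d := by
            rw [e2]
            have := vr_pos 0
            have : 0 ≤ x ^ 0 * vr 0 := by positivity
            linarith
          refine e3.trans (Finset.sum_le_sum_of_subset_of_nonneg ?_ fun d _ _ => ?_)
          · intro d hd
            rw [Finset.mem_range] at hd ⊢
            omega
          · have := vr_pos d
            positivity
      _ = (K * G) * ∑ m' ∈ range n, x ^ m' * YY R k m' := by
          rw [← Finset.mul_sum]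
          ring
      _ ≤ (K * G) * (K * G) ^ (k + 1) := mul_le_mul_of_nonneg_left ih (by positivity)
      _ = (K * G) ^ (k + 1 + 1) := by ring

/-- upper bound for the full sum -/
theorem M_up (h0 : ∀ S, 0 ≤ R S) (hK : 1 ≤ K) (hb : ∀ m, R {m} ≤ K * vr (m + 1))
    (hr : ∀ (S : Finset ℕ) (m' m : ℕ), S ⊆ range m' → m' < m →
      R (insert m (insert m' S)) ≤ K * (vr (m - m') * R (insert m' S)))
    {k n : ℕ} (hk : 1 ≤ k) (hkn : k ≤ n) :
    MM R k n ≤ (24 * K * ((n : ℝ) / k) ^ (2 / 3 : ℝ)) ^ k := by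
  obtain ⟨k, rfl⟩ : ∃ j, k = j + 1 := ⟨k - 1, by omega⟩
  set L : ℕ := n / (k + 1) + 1 with hL
  have hL1 : 1 ≤ L := Nat.le_add_left 1 _
  have K0 : 0 < K := by linarith
  have L0 : (1 : ℝ) ≤ L := by exact_mod_cast hL1
  have k0 : (0 : ℝ) < ((k + 1 : ℕ) : ℝ) := by positivity
  have hn1 : n < (k + 1) * L := by
    rw [hL]
    exact Nat.lt_mul_div_succ n (by omega)
  have hn2 : (k + 1) * L ≤ 2 * n := by
    have := Nat.mul_div_le n (k + 1)
    rw [hL]
    calc (k + 1) * (n / (k + 1) + 1) = (k + 1) * (n / (k + 1)) + (k + 1) := by ring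
      _ ≤ 2 * n := by omega
  set x : ℝ := (L : ℝ) / (L + 1) with hx
  have x0 : 0 < x := by positivity
  have x1 : x < 1 := by
    rw [hx, div_lt_one (by positivity)]
    linarith
  have A := A_up h0 hK hb hr x0 n (G_le hL1 n) k
  have h1 : x ^ n * MM R (k + 1) n ≤ (K * (4 * (L : ℝ) ^ (2 / 3 : ℝ))) ^ (k + 1) := by
    refine le_trans ?_ A
    rw [MM_succ, Finset.mul_sum]
    apply Finset.sum_le_sum
    intro m hm
    rw [Finset.mem_range] at hm
    exact mul_le_mul_of_nonneg_right (pow_le_pow_of_le_one x0.le x1.le hm.le) (YY_nonneg h0 k m)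
  have h2 : (x ^ n)⁻¹ ≤ 3 ^ (k + 1) := by
    have e : x⁻¹ = 1 / (L : ℝ) + 1 := by
      rw [hx]
      field_simp
      ring
    rw [← inv_pow, e]
    have e1 : (1 / (L : ℝ) + 1) ^ n ≤ Real.exp (1 / (L : ℝ)) ^ n :=
      pow_le_pow_left₀ (by positivity) (Real.add_one_le_exp _) n
    refine e1.trans ?_
    rw [← Real.exp_nat_mul]
    have e2 : (n : ℝ) * (1 / (L : ℝ)) ≤ ((k + 1 : ℕ) : ℝ) := by
      rw [mul_one_div, div_le_iff₀ (by linarith)]
      exact_mod_cast hn1.le
    have e3 : Real.exp 1 ≤ 3 := by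
      have := Real.exp_one_lt_d9
      linarith
    calc Real.exp ((n : ℝ) * (1 / (L : ℝ))) ≤ Real.exp (((k + 1 : ℕ) : ℝ) * 1) := by
          rw [mul_one]
          exact Real.exp_le_exp.mpr e2
      _ = Real.exp 1 ^ (k + 1) := Real.exp_nat_mul _ _
      _ ≤ 3 ^ (k + 1) := pow_le_pow_left₀ (Real.exp_pos 1).le e3 _
  have h3 : (L : ℝ) ^ (2 / 3 : ℝ) ≤ 2 * ((n : ℝ) / ((k + 1 : ℕ) : ℝ)) ^ (2 / 3 : ℝ) := by
    have e1 : (L : ℝ) ≤ 2 * ((n : ℝ) / ((k + 1 : ℕ) : ℝ)) := by
      rw [mul_div_assoc', le_div_iff₀ k0]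
      have : (((k + 1) * L : ℕ) : ℝ) ≤ ((2 * n : ℕ) : ℝ) := by exact_mod_cast hn2
      push_cast at this ⊢
      linarith
    have e2 := Real.rpow_le_rpow (by linarith) e1 (show (0 : ℝ) ≤ 2 / 3 by norm_num)
    rw [Real.mul_rpow (by norm_num) (by positivity)] at e2
    have e3 : (2 : ℝ) ^ (2 / 3 : ℝ) ≤ 2 := by
      have := Real.rpow_le_rpow_of_exponent_le (show (1 : ℝ) ≤ 2 by norm_num)
        (show (2 / 3 : ℝ) ≤ 1 by norm_num)
      rwa [Real.rpow_one] at this
    exact e2.trans (mul_le_mul_of_nonneg_right e3 (by positivity))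
  have M0 : 0 ≤ MM R (k + 1) n := Finset.sum_nonneg fun S _ => h0 _
  have xn : 0 < x ^ n := by positivity
  calc MM R (k + 1) n = (x ^ n)⁻¹ * (x ^ n * MM R (k + 1) n) := by
        rw [← mul_assoc, inv_mul_cancel₀ xn.ne', one_mul]
    _ ≤ 3 ^ (k + 1) * (K * (4 * (L : ℝ) ^ (2 / 3 : ℝ))) ^ (k + 1) :=
        mul_le_mul h2 h1 (by positivity) (by positivity)
    _ = (3 * (K * (4 * (L : ℝ) ^ (2 / 3 : ℝ)))) ^ (k + 1) := (mul_pow _ _ _).symm
    _ ≤ (24 * K * ((n : ℝ) / ((k + 1 : ℕ) : ℝ)) ^ (2 / 3 : ℝ)) ^ (k + 1) := by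
        apply pow_le_pow_left₀ (by positivity)
        calc 3 * (K * (4 * (L : ℝ) ^ (2 / 3 : ℝ))) = (12 * K) * (L : ℝ) ^ (2 / 3 : ℝ) := by ring
          _ ≤ (12 * K) * (2 * ((n : ℝ) / ((k + 1 : ℕ) : ℝ)) ^ (2 / 3 : ℝ)) :=
              mul_le_mul_of_nonneg_left h3 (by positivity)
          _ = _ := by ring

/-- lower bound for the full sum -/
theorem M_low (h0 : ∀ S, 0 ≤ R S) (hK : 1 ≤ K) (hb : ∀ m, vr (m + 1) ≤ K * R {m})
    (hr : ∀ (S : Finset ℕ) (m' m : ℕ), S ⊆ range m' → m' < m →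
      vr (m - m') * R (insert m' S) ≤ K * R (insert m (insert m' S)))
    {k n : ℕ} (hk : 1 ≤ k) (hkn : k ≤ n) :
    (((n : ℝ) / k) ^ (2 / 3 : ℝ) / (4 * K)) ^ k ≤ MM R k n := by
  obtain ⟨k, rfl⟩ : ∃ j, k = j + 1 := ⟨k - 1, by omega⟩
  set L : ℕ := n / (k + 1) with hL
  have hL1 : 1 ≤ L := by
    rw [hL]
    exact Nat.div_pos hkn (by omega)
  have K0 : 0 < K := by linarith
  have L0 : (1 : ℝ) ≤ L := by exact_mod_cast hL1
  have k0 : (0 : ℝ) < ((k + 1 : ℕ) : ℝ) := by positivity
  have hn1 : n ≤ 2 * ((k + 1) * L) := by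
    have := Nat.lt_mul_div_succ n (show 0 < k + 1 by omega)
    rw [← hL] at this
    nlinarith
  have hn2 : (k + 1) * L ≤ n := Nat.mul_div_le n (k + 1)
  set g : ℝ := ∑ i ∈ range L, vr (i + 1) with hg
  have g0 : 0 ≤ g := Finset.sum_nonneg fun i _ => (vr_pos _).le
  have B : ∀ j : ℕ, g ^ (j + 1) ≤ K ^ (j + 1) * ∑ m ∈ range ((j + 1) * L), YY R j m := by
    intro j
    induction j with
    | zero =>
      rw [zero_add, pow_one, pow_one, one_mul, Finset.mul_sum]
      apply Finset.sum_le_sum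
      intro m _
      rw [YY_zero]
      exact hb m
    | succ j ih =>
      have s1 : g * ∑ m' ∈ range ((j + 1) * L), YY R j m' ≤
          ∑ m ∈ range ((j + 1 + 1) * L), ∑ m' ∈ range m, vr (m - m') * YY R j m' := by
        rw [exch (fun m' m => vr (m - m') * YY R j m'), Finset.mul_sum]
        refine le_trans (Finset.sum_le_sum (g := fun m' =>
          ∑ m ∈ Ico (m' + 1) ((j + 1 + 1) * L), vr (m - m') * YY R j m') ?_)
          (Finset.sum_le_sum_of_subset_of_nonneg ?_ ?_)
        · intro m' hm'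
          rw [Finset.mem_range] at hm'
          show g * YY R j m' ≤ ∑ m ∈ Ico (m' + 1) ((j + 1 + 1) * L), vr (m - m') * YY R j m'
          rw [← Finset.sum_mul]
          apply mul_le_mul_of_nonneg_right _ (YY_nonneg h0 j m')
          rw [Finset.sum_Ico_eq_sum_range]
          have e1 : ∑ i ∈ range ((j + 1 + 1) * L - (m' + 1)), vr (m' + 1 + i - m') =
              ∑ i ∈ range ((j + 1 + 1) * L - (m' + 1)), vr (i + 1) := by
            apply Finset.sum_congr rfl
            intro i _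
            have : m' + 1 + i - m' = i + 1 := by omega
            rw [this]
          rw [e1]
          apply Finset.sum_le_sum_of_subset_of_nonneg
          · intro i hi
            rw [Finset.mem_range] at hi ⊢
            have e : (j + 1 + 1) * L = (j + 1) * L + L := by ring
            omega
          · exact fun i _ _ => (vr_pos _).le
        · intro i hi
          rw [Finset.mem_range] at hi ⊢
          have e : (j + 1 + 1) * L = (j + 1) * L + L := by ring
          omega
        · intro i _ _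
          exact Finset.sum_nonneg fun m _ => mul_nonneg (vr_pos _).le (YY_nonneg h0 j i)
      have s2 : ∑ m ∈ range ((j + 1 + 1) * L), ∑ m' ∈ range m, vr (m - m') * YY R j m' ≤
          K * ∑ m ∈ range ((j + 1 + 1) * L), YY R (j + 1) m := by
        rw [Finset.mul_sum]
        exact Finset.sum_le_sum fun m _ => YY_low hr j m
      calc g ^ (j + 1 + 1) = g * g ^ (j + 1) := by ring
        _ ≤ g * (K ^ (j + 1) * ∑ m ∈ range ((j + 1) * L), YY R j m) :=
            mul_le_mul_of_nonneg_left ih g0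
        _ = K ^ (j + 1) * (g * ∑ m ∈ range ((j + 1) * L), YY R j m) := by ring
        _ ≤ K ^ (j + 1) * (K * ∑ m ∈ range ((j + 1 + 1) * L), YY R (j + 1) m) :=
            mul_le_mul_of_nonneg_left (s1.trans s2) (by positivity)
        _ = _ := by ring
  have h1 : g ^ (k + 1) ≤ K ^ (k + 1) * MM R (k + 1) n := by
    refine (B k).trans (mul_le_mul_of_nonneg_left ?_ (by positivity))
    rw [MM_succ]
    apply Finset.sum_le_sum_of_subset_of_nonneg
    · intro i hi
      rw [Finset.mem_range] at hi ⊢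
      omega
    · exact fun i _ _ => YY_nonneg h0 k i
  have h2 : (L : ℝ) ^ (2 / 3 : ℝ) / 2 ≤ g := by
    have e1 : (L : ℝ) * vr L ≤ g := by
      have : ∑ _i ∈ range L, vr L ≤ g := by
        apply Finset.sum_le_sum
        intro i hi
        rw [Finset.mem_range] at hi
        exact vr_anti (by omega)
      rwa [Finset.sum_const, Finset.card_range, nsmul_eq_mul] at this
    refine le_trans ?_ e1
    have L0' : (0 : ℝ) < L := by linarith
    have e3 : (L : ℝ) * (1 / (L : ℝ)) ^ (1 / 3 : ℝ) = (L : ℝ) ^ (2 / 3 : ℝ) := by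
      rw [Real.div_rpow (by norm_num) L0'.le, Real.one_rpow, one_div, ← Real.rpow_neg L0'.le]
      nth_rewrite 1 [← Real.rpow_one (L : ℝ)]
      rw [← Real.rpow_add L0']
      norm_num
    have e4 : (1 / (L : ℝ)) ^ (1 / 3 : ℝ) ≤ 2 * vr L := by
      unfold vr
      have f1 : 1 / (L : ℝ) ≤ 2 * (1 / ((L : ℝ) + 1)) := by
        rw [mul_one_div, div_le_div_iff₀ L0' (by linarith)]
        linarith
      have f2 := Real.rpow_le_rpow (by positivity) f1 (show (0 : ℝ) ≤ 1 / 3 by norm_num)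
      rw [Real.mul_rpow (by norm_num) (by positivity)] at f2
      have f3 : (2 : ℝ) ^ (1 / 3 : ℝ) ≤ 2 := by
        have := Real.rpow_le_rpow_of_exponent_le (show (1 : ℝ) ≤ 2 by norm_num)
          (show (1 / 3 : ℝ) ≤ 1 by norm_num)
        rwa [Real.rpow_one] at this
      exact f2.trans (mul_le_mul_of_nonneg_right f3 (by positivity))
    rw [← e3]
    have := mul_le_mul_of_nonneg_left e4 L0'.le
    linarith
  have h3 : ((n : ℝ) / ((k + 1 : ℕ) : ℝ)) ^ (2 / 3 : ℝ) ≤ 2 * (L : ℝ) ^ (2 / 3 : ℝ) := by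
    have e1 : (n : ℝ) / ((k + 1 : ℕ) : ℝ) ≤ 2 * L := by
      rw [div_le_iff₀ k0]
      have : (n : ℝ) ≤ ((2 * ((k + 1) * L) : ℕ) : ℝ) := by exact_mod_cast hn1
      push_cast at this ⊢
      linarith
    have e2 := Real.rpow_le_rpow (by positivity) e1 (show (0 : ℝ) ≤ 2 / 3 by norm_num)
    rw [Real.mul_rpow (by norm_num) (by positivity)] at e2
    have e3 : (2 : ℝ) ^ (2 / 3 : ℝ) ≤ 2 := by
      have := Real.rpow_le_rpow_of_exponent_le (show (1 : ℝ) ≤ 2 by norm_num)
        (show (2 / 3 : ℝ) ≤ 1 by norm_num)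
      rwa [Real.rpow_one] at this
    exact e2.trans (mul_le_mul_of_nonneg_right e3 (by positivity))
  have h4 : ((n : ℝ) / ((k + 1 : ℕ) : ℝ)) ^ (2 / 3 : ℝ) / (4 * K) ≤ g / K := by
    rw [div_le_div_iff₀ (by positivity) K0]
    nlinarith
  calc (((n : ℝ) / ((k + 1 : ℕ) : ℝ)) ^ (2 / 3 : ℝ) / (4 * K)) ^ (k + 1) ≤ (g / K) ^ (k + 1) :=
        pow_le_pow_left₀ (by positivity) h4 _
    _ = g ^ (k + 1) / K ^ (k + 1) := div_pow _ _ _
    _ ≤ MM R (k + 1) n := by
        rw [div_le_iff₀ (by positivity), mul_comm]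
        exact h1

end main

end H334HI
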