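import Pool.Agent.H334HI.Sums

/-!
The number of the events which occur, in a family of events with a renewal structure: factorial
moments and tails.
-/

set_option autoImplicit false

namespace H334HI
open Finset MeasureTheory

/-! ### binomial coefficients -/

theorem fact_ge (k : ℕ) : ((k : ℝ) / 3) ^ k ≤ (k.factorial : ℝ) := by
  have h := Real.pow_div_factorial_le_exp (k : ℝ) (by positivity) k
  have f0 : (0 : ℝ) < k.factorial := by exact_mod_cast k.factorial_pos
  rw [div_le_iff₀ f0] at h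
  have e3 : Real.exp 1 ≤ 3 := by
    have := Real.exp_one_lt_d9
    linarith
  have e4 : Real.exp k ≤ 3 ^ k := by
    calc Real.exp (k : ℝ) = Real.exp ((k : ℝ) * 1) := by rw [mul_one]
      _ = Real.exp 1 ^ k := Real.exp_nat_mul _ _
      _ ≤ 3 ^ k := pow_le_pow_left₀ (Real.exp_pos 1).le e3 _
  rw [div_pow, div_le_iff₀ (by positivity)]
  calc (k : ℝ) ^ k ≤ Real.exp k * k.factorial := h
    _ ≤ 3 ^ k * k.factorial := mul_le_mul_of_nonneg_right e4 f0.le
    _ = _ := by ring

theorem choose_le {N k : ℕ} (hk : 1 ≤ k) : (N.choose k : ℝ) ≤ (3 * ((N : ℝ) / k)) ^ k := by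
  have h := Nat.choose_le_pow_div (α := ℝ) k N
  refine h.trans ?_
  have k0 : (0 : ℝ) < k := by exact_mod_cast hk
  have f := fact_ge k
  have f1 : (0 : ℝ) < ((k : ℝ) / 3) ^ k := by positivity
  calc (N : ℝ) ^ k / (k.factorial : ℝ) ≤ (N : ℝ) ^ k / ((k : ℝ) / 3) ^ k :=
        div_le_div_of_nonneg_left (by positivity) f1 f
    _ = (3 * ((N : ℝ) / k)) ^ k := by
        rw [← div_pow]
        congr 1
        field_simp

theorem le_choose {N k : ℕ} (hk : 1 ≤ k) (h : 2 * k ≤ N) :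
    ((N : ℝ) / (2 * k)) ^ k ≤ (N.choose k : ℝ) := by
  have h1 := Nat.pow_le_choose (α := ℝ) k N
  refine le_trans ?_ h1
  have k0 : (0 : ℝ) < k := by exact_mod_cast hk
  have f0 : (0 : ℝ) < k.factorial := by exact_mod_cast k.factorial_pos
  have f1 : (k.factorial : ℝ) ≤ (k : ℝ) ^ k := by exact_mod_cast Nat.factorial_le_pow k
  have f2 : (N : ℝ) / 2 ≤ ((N + 1 - k : ℕ) : ℝ) := by
    have : N ≤ 2 * (N + 1 - k) := by omega
    have : (N : ℝ) ≤ ((2 * (N + 1 - k) : ℕ) : ℝ) := by exact_mod_cast this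
    push_cast at this ⊢
    linarith
  calc ((N : ℝ) / (2 * k)) ^ k = ((N : ℝ) / 2) ^ k / (k : ℝ) ^ k := by
        rw [← div_pow, div_div]
    _ ≤ ((N + 1 - k : ℕ) : ℝ) ^ k / (k : ℝ) ^ k :=
        div_le_div_of_nonneg_right (pow_le_pow_left₀ (by positivity) f2 k) (by positivity)
    _ ≤ ((N + 1 - k : ℕ) : ℝ) ^ k / (k.factorial : ℝ) :=
        div_le_div_of_nonneg_left (by positivity) f0 f1

theorem choose_two {N k : ℕ} (hk : 1 ≤ k) (h : 4 * k ≤ N) :
    (N.choose k : ℝ) * ((N : ℝ) / (16 * k)) ^ k ≤ (N.choose (2 * k) : ℝ) := by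
  have h1 := Nat.choose_mul (n := N) (k := 2 * k) (s := k) (by omega)
  have e : 2 * k - k = k := by omega
  rw [e] at h1
  have h2 : (N.choose (2 * k) : ℝ) * ((2 * k).choose k : ℝ) =
      (N.choose k : ℝ) * ((N - k).choose k : ℝ) := by exact_mod_cast h1
  have h3 : (((2 * k).choose k : ℕ) : ℝ) ≤ 4 ^ k := by
    have : (2 * k).choose k ≤ 2 ^ (2 * k) := Nat.choose_le_two_pow _ _
    have e2 : (2 : ℕ) ^ (2 * k) = 4 ^ k := by rw [pow_mul]; norm_num
    rw [e2] at this
    exact_mod_cast this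
  have h4 := le_choose (N := N - k) hk (by omega)
  have k0 : (0 : ℝ) < k := by exact_mod_cast hk
  have h5 : (N : ℝ) / (4 * k) ≤ ((N - k : ℕ) : ℝ) / (2 * k) := by
    rw [div_le_div_iff₀ (by positivity) (by positivity)]
    have : N ≤ 2 * (N - k) := by omega
    have : (N : ℝ) ≤ ((2 * (N - k) : ℕ) : ℝ) := by exact_mod_cast this
    push_cast at this ⊢
    nlinarith
  have c0 : (0 : ℝ) ≤ N.choose k := by positivity
  have c1 : (0 : ℝ) ≤ N.choose (2 * k) := by positivity
  have h6 : (N.choose k : ℝ) * ((N : ℝ) / (4 * k)) ^ k ≤ (N.choose (2 * k) : ℝ) * 4 ^ k := by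
    calc (N.choose k : ℝ) * ((N : ℝ) / (4 * k)) ^ k
        ≤ (N.choose k : ℝ) * (((N - k : ℕ) : ℝ) / (2 * k)) ^ k :=
          mul_le_mul_of_nonneg_left (pow_le_pow_left₀ (by positivity) h5 k) c0
      _ ≤ (N.choose k : ℝ) * ((N - k).choose k : ℝ) := mul_le_mul_of_nonneg_left h4 c0
      _ = (N.choose (2 * k) : ℝ) * ((2 * k).choose k : ℝ) := h2.symm
      _ ≤ _ := mul_le_mul_of_nonneg_left h3 c1
  have e5 : ((N : ℝ) / (16 * k)) ^ k = ((N : ℝ) / (4 * k)) ^ k / 4 ^ k := by
    rw [← div_pow]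
    congr 1
    field_simp
    norm_num
  rw [e5, ← mul_div_assoc, div_le_iff₀ (by positivity)]
  exact h6

/-! ### the number of events -/

section prob

variable {Ω : Type*} [MeasurableSpace Ω] {μ : Measure Ω} [IsProbabilityMeasure μ] {W : ℕ → Set Ω}

open Classical in
/-- the number of the first `n` events which occur -/
noncomputable def NN (W : ℕ → Set Ω) (n : ℕ) (ω : Ω) : ℕ := ((range n).filter (fun i => ω ∈ W i)).card

/-- the probability that all the events in `S` occur -/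
noncomputable def RR (μ : Measure Ω) (W : ℕ → Set Ω) (S : Finset ℕ) : ℝ :=
  μ.real {ω | ∀ i ∈ S, ω ∈ W i}

theorem NN_le (n : ℕ) (ω : Ω) : NN W n ω ≤ n := by
  classical
  unfold NN
  refine (Finset.card_filter_le _ _).trans (le_of_eq (Finset.card_range n))

theorem NN_meas (hW : ∀ i, MeasurableSet (W i)) (n : ℕ) : Measurable (NN W n) := by
  classical
  have e : NN W n = fun ω => ∑ i ∈ range n, if ω ∈ W i then 1 else 0 := by
    funext ω
    unfold NN
    rw [Finset.card_filter]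
  rw [e]
  exact Finset.measurable_sum _ fun i _ => Measurable.ite (hW i) measurable_const measurable_const

theorem meas_all (hW : ∀ i, MeasurableSet (W i)) (S : Finset ℕ) :
    MeasurableSet {ω | ∀ i ∈ S, ω ∈ W i} := by
  have e : {ω | ∀ i ∈ S, ω ∈ W i} = ⋂ i ∈ S, W i := by
    ext ω
    simp
  rw [e]
  exact Finset.measurableSet_biInter S fun i _ => hW i

theorem choose_eq (n k : ℕ) (ω : Ω) : ((NN W n ω).choose k : ℝ) =
    ∑ S ∈ powersetCard k (range n), Set.indicator {ω | ∀ i ∈ S, ω ∈ W i} (fun _ => (1 : ℝ)) ω := by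
  classical
  have e1 : ∀ S ∈ powersetCard k (range n),
      Set.indicator {ω | ∀ i ∈ S, ω ∈ W i} (fun _ => (1 : ℝ)) ω =
        if ∀ i ∈ S, ω ∈ W i then 1 else 0 := by
    intro S _
    rw [Set.indicator_apply]
    rfl
  rw [Finset.sum_congr rfl e1, Finset.sum_boole]
  unfold NN
  rw [← Finset.card_powersetCard]
  congr 2
  ext S
  simp only [Finset.mem_powersetCard, Finset.mem_filter]
  constructor
  · rintro ⟨h1, h2⟩
    refine ⟨⟨fun i hi => (Finset.mem_filter.mp (h1 hi)).1, h2⟩, fun i hi =>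
      (Finset.mem_filter.mp (h1 hi)).2⟩
  · rintro ⟨⟨h1, h2⟩, h3⟩
    exact ⟨fun i hi => Finset.mem_filter.mpr ⟨h1 hi, h3 i hi⟩, h2⟩

theorem int_choose_integrable (hW : ∀ i, MeasurableSet (W i)) (n k : ℕ) :
    Integrable (fun ω => ((NN W n ω).choose k : ℝ)) μ := by
  have e : (fun ω => ((NN W n ω).choose k : ℝ)) = fun ω => ∑ S ∈ powersetCard k (range n),
      Set.indicator {ω | ∀ i ∈ S, ω ∈ W i} (fun _ => (1 : ℝ)) ω := by
    funext ω
    exact choose_eq n k ω
  rw [e]
  exact integrable_finsetSum _ fun S _ => (integrable_const (1 : ℝ)).indicator (meas_all hW S)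

theorem int_choose (hW : ∀ i, MeasurableSet (W i)) (n k : ℕ) :
    ∫ ω, ((NN W n ω).choose k : ℝ) ∂μ = MM (RR μ W) k n := by
  have e : (fun ω => ((NN W n ω).choose k : ℝ)) = fun ω => ∑ S ∈ powersetCard k (range n),
      Set.indicator {ω | ∀ i ∈ S, ω ∈ W i} (fun _ => (1 : ℝ)) ω := by
    funext ω
    exact choose_eq n k ω
  rw [e, integral_finsetSum _ fun S _ => (integrable_const (1 : ℝ)).indicator (meas_all hW S)]
  unfold MM RR
  apply Finset.sum_congr rfl
  intro S _
  rw [integral_indicator (meas_all hW S)]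
  simp [Measure.real]

theorem ev_meas (hW : ∀ i, MeasurableSet (W i)) (n : ℕ) (y : ℝ) :
    MeasurableSet {ω | y ≤ (NN W n ω : ℝ)} := by
  have : Measurable fun ω => (NN W n ω : ℝ) := measurable_from_nat.comp (NN_meas hW n)
  exact this measurableSet_Ici

theorem int_ind (hW : ∀ i, MeasurableSet (W i)) (n : ℕ) (y b : ℝ) :
    ∫ ω, Set.indicator {ω | y ≤ (NN W n ω : ℝ)} (fun _ => b) ω ∂μ =
      b * μ.real {ω | y ≤ (NN W n ω : ℝ)} := by
  rw [integral_indicator (ev_meas hW n y)]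
  simp [Measure.real, mul_comm]

/-- Markov's inequality -/
theorem markov (hW : ∀ i, MeasurableSet (W i)) {n k : ℕ} {y c : ℝ}
    (h : ∀ N : ℕ, y ≤ N → c ≤ (N.choose k : ℝ)) :
    c * μ.real {ω | y ≤ (NN W n ω : ℝ)} ≤ MM (RR μ W) k n := by
  rw [← int_choose hW, ← int_ind hW]
  apply integral_mono ((integrable_const c).indicator (ev_meas hW n y))
    (int_choose_integrable hW n k)
  intro ω
  simp only
  by_cases hω : y ≤ (NN W n ω : ℝ)
  · rw [Set.indicator_of_mem (show ω ∈ {ω | y ≤ (NN W n ω : ℝ)} from hω)]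
    exact h _ hω
  · rw [Set.indicator_of_notMem (show ω ∉ {ω | y ≤ (NN W n ω : ℝ)} from hω)]
    positivity

/-- the reverse inequality -/
theorem reverse (hW : ∀ i, MeasurableSet (W i)) {n k : ℕ} {y a b ε : ℝ}
    (h : ∀ N : ℕ, N ≤ n → (N.choose k : ℝ) ≤ a + (if y ≤ (N : ℝ) then b else 0) +
      ε * (N.choose (2 * k) : ℝ)) :
    MM (RR μ W) k n ≤ a + b * μ.real {ω | y ≤ (NN W n ω : ℝ)} + ε * MM (RR μ W) (2 * k) n := by
  have i1 : Integrable (fun ω => Set.indicator {ω | y ≤ (NN W n ω : ℝ)} (fun _ => b) ω) μ :=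
    (integrable_const b).indicator (ev_meas hW n y)
  have i2 : Integrable (fun ω => ε * ((NN W n ω).choose (2 * k) : ℝ)) μ :=
    (int_choose_integrable (μ := μ) hW n (2 * k)).const_mul ε
  have i12 : Integrable (fun ω => a + Set.indicator {ω | y ≤ (NN W n ω : ℝ)} (fun _ => b) ω) μ :=
    (integrable_const a).add i1
  have i3 : Integrable (fun ω => a + Set.indicator {ω | y ≤ (NN W n ω : ℝ)} (fun _ => b) ω +
      ε * ((NN W n ω).choose (2 * k) : ℝ)) μ := i12.add i2
  have e : ∫ ω, (a + Set.indicator {ω | y ≤ (NN W n ω : ℝ)} (fun _ => b) ω +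
      ε * ((NN W n ω).choose (2 * k) : ℝ)) ∂μ =
      a + b * μ.real {ω | y ≤ (NN W n ω : ℝ)} + ε * MM (RR μ W) (2 * k) n := by
    rw [integral_add i12 i2, integral_add (integrable_const a) i1,
      int_ind hW, integral_const_mul, int_choose hW]
    simp
  rw [← e, ← int_choose hW]
  apply integral_mono (int_choose_integrable hW n k) i3
  intro ω
  have := h (NN W n ω) (NN_le n ω)
  show ((NN W n ω).choose k : ℝ) ≤ a + Set.indicator {ω | y ≤ (NN W n ω : ℝ)} (fun _ => b) ω +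
      ε * ((NN W n ω).choose (2 * k) : ℝ)
  by_cases hω : y ≤ (NN W n ω : ℝ)
  · rw [if_pos hω] at this
    rw [Set.indicator_of_mem (show ω ∈ {ω | y ≤ (NN W n ω : ℝ)} from hω)]
    exact this
  · rw [if_neg hω] at this
    rw [Set.indicator_of_notMem (show ω ∉ {ω | y ≤ (NN W n ω : ℝ)} from hω)]
    exact this

end prob

end H334HI
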