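import Pool.Agent.H334HI.Tail

/-!
Tails of the number of the events which occur.
-/

set_option autoImplicit false

namespace H334HI
open Finset MeasureTheory

theorem cube_root {x : ℝ} (hx : 0 ≤ x) : (x ^ (1 / 3 : ℝ)) ^ 3 = x := by
  rw [← Real.rpow_natCast, ← Real.rpow_mul hx]
  norm_num

theorem two_thirds {x : ℝ} (hx : 0 ≤ x) : x ^ (2 / 3 : ℝ) = (x ^ (1 / 3 : ℝ)) ^ 2 := by
  rw [← Real.rpow_natCast, ← Real.rpow_mul hx]
  norm_num

theorem le_of_cube {a b : ℝ} (hb : 0 ≤ b) (h : a ^ 3 ≤ b ^ 3) : a ≤ b := by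
  by_contra hc
  push Not at hc
  have : b ^ 3 < a ^ 3 := pow_lt_pow_left₀ hc hb (by norm_num)
  linarith

section prob

variable {Ω : Type*} [MeasurableSpace Ω] {μ : Measure Ω} [IsProbabilityMeasure μ] {W : ℕ → Set Ω}
  {C : ℝ}

theorem tail_up (hW : ∀ i, MeasurableSet (W i)) (hC : 1 ≤ C)
    (hup : ∀ k n : ℕ, 1 ≤ k → k ≤ n →
      MM (RR μ W) k n ≤ (C * ((n : ℝ) / k) ^ (2 / 3 : ℝ)) ^ k)
    {n : ℕ} (hn : 1 ≤ n) {t : ℝ} (ht : 0 < t) :
    μ.real {ω | t * (n : ℝ) ^ (2 / 3 : ℝ) ≤ (NN W n ω : ℝ)} ≤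
      3 * Real.exp (-(t / (6 * C)) ^ 3) := by
  have hexp3 : Real.exp 1 ≤ 3 := by
    have := Real.exp_one_lt_d9
    linarith
  have n0 : (0 : ℝ) < n := by exact_mod_cast hn
  set s : ℝ := (t / (6 * C)) ^ 3 with hs
  have s0 : 0 < s := by positivity
  set k : ℕ := ⌊s⌋₊ with hk
  have hks : (k : ℝ) ≤ s := Nat.floor_le s0.le
  have hsk : s < k + 1 := Nat.lt_floor_add_one s
  have hfin : Real.exp (-(k : ℝ)) ≤ 3 * Real.exp (-s) := by
    calc Real.exp (-(k : ℝ)) ≤ Real.exp (1 + -s) := Real.exp_le_exp.mpr (by linarith)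
      _ = Real.exp 1 * Real.exp (-s) := Real.exp_add _ _
      _ ≤ 3 * Real.exp (-s) := mul_le_mul_of_nonneg_right hexp3 (Real.exp_pos _).le
  refine le_trans ?_ hfin
  rcases Nat.eq_zero_or_pos k with h0 | h0
  · rw [h0, Nat.cast_zero, neg_zero, Real.exp_zero]
    exact measureReal_le_one
  · set ν : ℝ := (n : ℝ) ^ (1 / 3 : ℝ) with hν
    have ν0 : 0 < ν := by positivity
    have hν3 : ν ^ 3 = n := cube_root n0.le
    have hν2 : (n : ℝ) ^ (2 / 3 : ℝ) = ν ^ 2 := two_thirds n0.le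
    rw [hν2]
    rcases lt_or_ge (n : ℝ) (t * ν ^ 2) with h1 | h1
    · have e : {ω | t * ν ^ 2 ≤ (NN W n ω : ℝ)} = ∅ := by
        ext ω
        simp only [Set.mem_empty_iff_false, iff_false]
        intro (h2 : t * ν ^ 2 ≤ (NN W n ω : ℝ))
        have h3 : (NN W n ω : ℝ) ≤ n := by exact_mod_cast NN_le n ω
        linarith
      rw [e, measureReal_empty]
      exact (Real.exp_pos _).le
    · have htν : t ≤ ν := by
        have : t * ν ^ 2 ≤ ν * ν ^ 2 := by
          calc t * ν ^ 2 ≤ n := h1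
            _ = ν * ν ^ 2 := by rw [← hν3]; ring
        exact le_of_mul_le_mul_right this (by positivity)
      have hA : (216 : ℝ) ≤ (6 * C) ^ 3 := by
        calc (216 : ℝ) = (6 * 1) ^ 3 := by norm_num
          _ ≤ (6 * C) ^ 3 := pow_le_pow_left₀ (by norm_num) (by linarith) 3
      have hst : 216 * s ≤ t ^ 3 := by
        rw [hs, div_pow]
        calc 216 * (t ^ 3 / (6 * C) ^ 3) = t ^ 3 * (216 / (6 * C) ^ 3) := by ring
          _ ≤ t ^ 3 * 1 := by
              apply mul_le_mul_of_nonneg_left _ (by positivity)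
              rw [div_le_one (by positivity)]
              exact hA
          _ = t ^ 3 := mul_one _
      have ht3 : t ^ 3 ≤ t * ν ^ 2 := by
        calc t ^ 3 = t * t ^ 2 := by ring
          _ ≤ t * ν ^ 2 := mul_le_mul_of_nonneg_left (pow_le_pow_left₀ ht.le htν 2) ht.le
      have k0 : (0 : ℝ) < k := by exact_mod_cast h0
      have hkn : k ≤ n := by
        have : (k : ℝ) ≤ n := by linarith
        exact_mod_cast this
      have m := markov (μ := μ) hW (n := n) (k := k) (y := t * ν ^ 2)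
        (c := ((t * ν ^ 2) / (2 * k)) ^ k) (fun N hN => by
          refine le_trans ?_ (le_choose h0 (by
            have : ((2 * k : ℕ) : ℝ) ≤ N := by
              push_cast
              linarith
            exact_mod_cast this))
          apply pow_le_pow_left₀ (by positivity)
          exact div_le_div_of_nonneg_right hN (by positivity))
      have u := hup k n h0 hkn
      set κ : ℝ := (k : ℝ) ^ (1 / 3 : ℝ) with hκ
      have κ0 : 0 < κ := by positivity
      have hκ3 : κ ^ 3 = k := cube_root k0.le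
      have e1 : ((n : ℝ) / k) ^ (2 / 3 : ℝ) = ν ^ 2 / κ ^ 2 := by
        rw [Real.div_rpow n0.le k0.le, hν2, two_thirds k0.le]
      rw [e1] at u
      have hκt : κ ≤ t / (6 * C) := by
        apply le_of_cube (by positivity)
        rw [hκ3]
        exact hks
      have x0 : 0 < ((t * ν ^ 2) / (2 * k)) ^ k := by positivity
      have p1 : μ.real {ω | t * ν ^ 2 ≤ (NN W n ω : ℝ)} ≤
          (C * (ν ^ 2 / κ ^ 2)) ^ k / ((t * ν ^ 2) / (2 * k)) ^ k := by
        rw [le_div_iff₀ x0, mul_comm]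
        exact m.trans u
      refine p1.trans ?_
      rw [← div_pow]
      have e2 : C * (ν ^ 2 / κ ^ 2) / (t * ν ^ 2 / (2 * k)) = 2 * C * κ / t := by
        rw [← hκ3]
        field_simp
      rw [e2]
      have e3 : 2 * C * κ / t ≤ 1 / 3 := by
        rw [div_le_div_iff₀ ht (by norm_num)]
        have := mul_le_mul_of_nonneg_left hκt (show 0 ≤ 6 * C by linarith)
        rw [mul_div_cancel₀ _ (by positivity)] at this
        linarith
      have e4 : (1 / 3 : ℝ) ≤ Real.exp (-1) := by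
        rw [Real.exp_neg, one_div]
        exact inv_anti₀ (Real.exp_pos 1) hexp3
      calc (2 * C * κ / t) ^ k ≤ Real.exp (-1) ^ k :=
            pow_le_pow_left₀ (by positivity) (e3.trans e4) k
        _ = Real.exp (-(k : ℝ)) := by
            rw [← Real.exp_nat_mul]
            congr 1
            ring

theorem tail_low1 (hW : ∀ i, MeasurableSet (W i)) (hC : 1 ≤ C)
    (hup : ∀ k n : ℕ, 1 ≤ k → k ≤ n →
      MM (RR μ W) k n ≤ (C * ((n : ℝ) / k) ^ (2 / 3 : ℝ)) ^ k)
    (hlow : ∀ k n : ℕ, 1 ≤ k → k ≤ n →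
      (((n : ℝ) / k) ^ (2 / 3 : ℝ) / C) ^ k ≤ MM (RR μ W) k n)
    {k n : ℕ} (hk : 1 ≤ k) (hkn : k ≤ n) :
    (1 / (384 * C ^ 4)) ^ k ≤
      μ.real {ω | 1 / (12 * C) * (k * ((n : ℝ) / k) ^ (2 / 3 : ℝ)) ≤ (NN W n ω : ℝ)} := by
  have k0 : (0 : ℝ) < k := by exact_mod_cast hk
  have k1 : (1 : ℝ) ≤ k := by exact_mod_cast hk
  have C0 : 0 < C := by linarith
  have n0 : (0 : ℝ) < n := by
    have : 0 < n := by omega
    exact_mod_cast this
  set u : ℝ := ((n : ℝ) / k) ^ (2 / 3 : ℝ) with hu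
  have u1 : 1 ≤ u := by
    apply Real.one_le_rpow _ (by norm_num)
    rw [one_le_div k0]
    exact_mod_cast hkn
  have u0 : 0 < u := by linarith
  set y : ℝ := 1 / (12 * C) * (k * u) with hy
  set σ : ℝ := 64 * C ^ 3 * u with hσ
  have C3 : 1 ≤ C ^ 3 := one_le_pow₀ hC
  have σ4 : 4 ≤ σ := by nlinarith
  have σ0 : 0 < σ := by linarith
  have r := reverse (μ := μ) hW (n := n) (k := k) (y := y) (a := (u / (4 * C)) ^ k)
    (b := (3 * σ) ^ k) (ε := (16 / σ) ^ k) (fun N hN => by
      have c2 : 0 ≤ (16 / σ) ^ k * (N.choose (2 * k) : ℝ) := by positivity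
      have a0 : 0 ≤ (u / (4 * C)) ^ k := by positivity
      by_cases h1 : y ≤ (N : ℝ)
      · rw [if_pos h1]
        by_cases h2 : (N : ℝ) ≤ σ * k
        · have h3 : (N.choose k : ℝ) ≤ (3 * σ) ^ k := by
            refine (choose_le hk).trans (pow_le_pow_left₀ (by positivity) ?_ k)
            apply mul_le_mul_of_nonneg_left _ (by norm_num)
            rw [div_le_iff₀ k0]
            exact h2
          linarith
        · push Not at h2
          have h4k : 4 * k ≤ N := by
            have : ((4 * k : ℕ) : ℝ) ≤ N := by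
              push_cast
              nlinarith
            exact_mod_cast this
          have h3 := choose_two hk h4k
          have h5 : (σ / 16) ^ k ≤ ((N : ℝ) / (16 * k)) ^ k := by
            apply pow_le_pow_left₀ (by positivity)
            rw [div_le_div_iff₀ (by norm_num) (by positivity)]
            linarith
          have h6 : (N.choose k : ℝ) * (σ / 16) ^ k ≤ (N.choose (2 * k) : ℝ) :=
            (mul_le_mul_of_nonneg_left h5 (by positivity)).trans h3
          have h7 : (N.choose k : ℝ) ≤ (16 / σ) ^ k * (N.choose (2 * k) : ℝ) := by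
            calc (N.choose k : ℝ) = (16 / σ) ^ k * ((N.choose k : ℝ) * (σ / 16) ^ k) := by
                  rw [mul_comm, mul_assoc, ← mul_pow]
                  have : σ / 16 * (16 / σ) = 1 := by field_simp
                  rw [this, one_pow, mul_one]
              _ ≤ _ := mul_le_mul_of_nonneg_left h6 (by positivity)
          have b0 : 0 ≤ (3 * σ) ^ k := by positivity
          linarith
      · rw [if_neg h1]
        push Not at h1
        have h3 : (N.choose k : ℝ) ≤ (u / (4 * C)) ^ k := by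
          refine (choose_le hk).trans (pow_le_pow_left₀ (by positivity) ?_ k)
          have h4 : (N : ℝ) / k ≤ 1 / (12 * C) * u := by
            rw [div_le_iff₀ k0]
            calc (N : ℝ) ≤ y := h1.le
              _ = _ := by rw [hy]; ring
          calc 3 * ((N : ℝ) / k) ≤ 3 * (1 / (12 * C) * u) :=
                mul_le_mul_of_nonneg_left h4 (by norm_num)
            _ = u / (4 * C) := by field_simp; norm_num
        linarith)
  have w := hlow k n hk hkn
  set w0 : ℝ := (u / C) ^ k with hw0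
  have w00 : 0 < w0 := by positivity
  have q4 : (1 / 4 : ℝ) ^ k ≤ 1 / 4 := by
    have := pow_le_pow_of_le_one (show (0 : ℝ) ≤ 1 / 4 by norm_num) (by norm_num) hk
    rwa [pow_one] at this
  have a1 : (u / (4 * C)) ^ k ≤ w0 / 4 := by
    have e : u / (4 * C) = (u / C) * (1 / 4) := by field_simp
    rw [e, mul_pow]
    calc (u / C) ^ k * (1 / 4) ^ k ≤ (u / C) ^ k * (1 / 4) :=
          mul_le_mul_of_nonneg_left q4 (by positivity)
      _ = w0 / 4 := by rw [hw0]; ring
  have m1 : (16 / σ) ^ k * MM (RR μ W) (2 * k) n ≤ w0 / 4 := by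
    rcases Nat.lt_or_ge n (2 * k) with h2 | h2
    · have : MM (RR μ W) (2 * k) n = 0 := by
        unfold MM
        rw [Finset.powersetCard_eq_empty.mpr (by rw [Finset.card_range]; exact h2),
          Finset.sum_empty]
      rw [this, mul_zero]
      positivity
    · have h3 := hup (2 * k) n (by omega) h2
      have h4 : ((n : ℝ) / ((2 * k : ℕ) : ℝ)) ^ (2 / 3 : ℝ) ≤ u := by
        rw [hu]
        apply Real.rpow_le_rpow (by positivity) _ (by norm_num)
        apply div_le_div_of_nonneg_left n0.le k0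
        push_cast
        linarith
      have h5 : MM (RR μ W) (2 * k) n ≤ (C ^ 2 * u ^ 2) ^ k := by
        refine h3.trans ?_
        rw [pow_mul]
        apply pow_le_pow_left₀ (by positivity)
        calc (C * ((n : ℝ) / ((2 * k : ℕ) : ℝ)) ^ (2 / 3 : ℝ)) ^ 2 ≤ (C * u) ^ 2 :=
              pow_le_pow_left₀ (by positivity) (mul_le_mul_of_nonneg_left h4 C0.le) 2
          _ = _ := by ring
      calc (16 / σ) ^ k * MM (RR μ W) (2 * k) n ≤ (16 / σ) ^ k * (C ^ 2 * u ^ 2) ^ k :=
            mul_le_mul_of_nonneg_left h5 (by positivity)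
        _ = (16 / σ * (C ^ 2 * u ^ 2)) ^ k := (mul_pow _ _ _).symm
        _ = (u / C * (1 / 4)) ^ k := by
            have e : 16 / σ * (C ^ 2 * u ^ 2) = u / C * (1 / 4) := by
              rw [hσ]
              field_simp
              norm_num
            rw [e]
        _ = (u / C) ^ k * (1 / 4) ^ k := mul_pow _ _ _
        _ ≤ (u / C) ^ k * (1 / 4) := mul_le_mul_of_nonneg_left q4 (by positivity)
        _ = w0 / 4 := by rw [hw0]; ring
  have b1 : w0 / 2 ≤ (3 * σ) ^ k * μ.real {ω | y ≤ (NN W n ω : ℝ)} := by linarith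
  have b0 : 0 < (3 * σ) ^ k := by positivity
  have p0 : w0 / 2 / (3 * σ) ^ k ≤ μ.real {ω | y ≤ (NN W n ω : ℝ)} := by
    rw [div_le_iff₀ b0, mul_comm]
    exact b1
  refine le_trans ?_ p0
  have e1 : w0 / 2 / (3 * σ) ^ k = (1 / 2) * (1 / (192 * C ^ 4)) ^ k := by
    rw [hw0, div_right_comm, ← div_pow, hσ]
    have : u / C / (3 * (64 * C ^ 3 * u)) = 1 / (192 * C ^ 4) := by
      field_simp
      norm_num
    rw [this]
    ring
  rw [e1]
  have e2 : (1 / (384 * C ^ 4)) ^ k = (1 / 2 : ℝ) ^ k * (1 / (192 * C ^ 4)) ^ k := by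
    rw [← mul_pow]
    congr 1
    field_simp
    norm_num
  rw [e2]
  apply mul_le_mul_of_nonneg_right _ (by positivity)
  have := pow_le_pow_of_le_one (show (0 : ℝ) ≤ 1 / 2 by norm_num) (by norm_num) hk
  rwa [pow_one] at this

theorem all_le (hW : ∀ i, MeasurableSet (W i)) (n : ℕ) :
    MM (RR μ W) n n ≤ μ.real {ω | (n : ℝ) ≤ (NN W n ω : ℝ)} := by
  have e : MM (RR μ W) n n = μ.real {ω | ∀ i ∈ range n, ω ∈ W i} := by
    unfold MM
    have h1 : powersetCard n (range n) = {range n} := by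
      conv_lhs => rw [← Finset.card_range n]
      rw [Finset.card_range]
      have := Finset.powersetCard_self (range n)
      rwa [Finset.card_range] at this
    rw [h1, Finset.sum_singleton]
    rfl
  rw [e]
  refine measureReal_mono ?_ (measure_ne_top _ _)
  intro ω hω
  classical
  show (n : ℝ) ≤ (NN W n ω : ℝ)
  have h2 : NN W n ω = n := by
    unfold NN
    rw [Finset.filter_true_of_mem (fun i hi => hω i hi), Finset.card_range]
  rw [h2]

theorem tail_low (hW : ∀ i, MeasurableSet (W i)) (hC : 1 ≤ C)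
    (hup : ∀ k n : ℕ, 1 ≤ k → k ≤ n →
      MM (RR μ W) k n ≤ (C * ((n : ℝ) / k) ^ (2 / 3 : ℝ)) ^ k)
    (hlow : ∀ k n : ℕ, 1 ≤ k → k ≤ n →
      (((n : ℝ) / k) ^ (2 / 3 : ℝ) / C) ^ k ≤ MM (RR μ W) k n)
    {n : ℕ} (hn : 1 ≤ n) {t : ℝ} (ht : 1 ≤ t) (htn : t ≤ (n : ℝ) ^ (1 / 3 : ℝ)) :
    Real.exp (-(2 * Real.log (384 * C ^ 4) * (12 * C) ^ 3) * t ^ 3) ≤
      μ.real {ω | t * (n : ℝ) ^ (2 / 3 : ℝ) ≤ (NN W n ω : ℝ)} := by
  have n0 : (0 : ℝ) < n := by exact_mod_cast hn
  have t0 : 0 < t := by linarith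
  have C0 : 0 < C := by linarith
  have C4 : 1 ≤ C ^ 4 := one_le_pow₀ hC
  set ℓ : ℝ := Real.log (384 * C ^ 4) with hℓ
  have ℓ0 : 0 ≤ ℓ := Real.log_nonneg (by linarith)
  have hexp : Real.exp ℓ = 384 * C ^ 4 := Real.exp_log (by positivity)
  set ν : ℝ := (n : ℝ) ^ (1 / 3 : ℝ) with hν
  have ν0 : 0 < ν := by positivity
  have hν3 : ν ^ 3 = n := cube_root n0.le
  have hν2 : (n : ℝ) ^ (2 / 3 : ℝ) = ν ^ 2 := two_thirds n0.le
  set s : ℝ := (12 * C * t) ^ 3 with hs
  have s1 : 1 ≤ s := one_le_pow₀ (by nlinarith)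
  have hfin : ∀ k : ℕ, (k : ℝ) ≤ 2 * s →
      Real.exp (-(2 * ℓ * (12 * C) ^ 3) * t ^ 3) ≤ (1 / (384 * C ^ 4)) ^ k := by
    intro k hk
    have e : (1 / (384 * C ^ 4)) ^ k = Real.exp (-(k * ℓ)) := by
      rw [← hexp, one_div, ← Real.exp_neg, ← Real.exp_nat_mul]
      congr 1
      ring
    rw [e]
    apply Real.exp_le_exp.mpr
    have h1 : (k : ℝ) * ℓ ≤ 2 * s * ℓ := mul_le_mul_of_nonneg_right hk ℓ0
    have h2 : 2 * s * ℓ = 2 * ℓ * (12 * C) ^ 3 * t ^ 3 := by rw [hs]; ring
    linarith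
  rcases le_or_gt s n with h1 | h1
  · set k : ℕ := ⌈s⌉₊ with hk
    have hk1 : 1 ≤ k := Nat.one_le_ceil_iff.mpr (by linarith)
    have hkn : k ≤ n := Nat.ceil_le.mpr h1
    have hsk : s ≤ k := Nat.le_ceil s
    have hks : (k : ℝ) < s + 1 := Nat.ceil_lt_add_one (by linarith)
    have k0 : (0 : ℝ) < k := by exact_mod_cast hk1
    refine (hfin k (by linarith)).trans ?_
    refine (tail_low1 hW hC hup hlow hk1 hkn).trans ?_
    refine measureReal_mono ?_ (measure_ne_top _ _)
    intro ω hω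
    refine le_trans ?_ (show 1 / (12 * C) * (k * ((n : ℝ) / k) ^ (2 / 3 : ℝ)) ≤
      (NN W n ω : ℝ) from hω)
    set κ : ℝ := (k : ℝ) ^ (1 / 3 : ℝ) with hκ
    have κ0 : 0 < κ := by positivity
    have hκ3 : κ ^ 3 = k := cube_root k0.le
    have e1 : ((n : ℝ) / k) ^ (2 / 3 : ℝ) = ν ^ 2 / κ ^ 2 := by
      rw [Real.div_rpow n0.le k0.le, hν2, two_thirds k0.le]
    rw [e1, hν2, ← hκ3]
    have hκt : 12 * C * t ≤ κ := by
      apply le_of_cube κ0.le
      rw [hκ3]
      exact hsk
    have e2 : 1 / (12 * C) * (κ ^ 3 * (ν ^ 2 / κ ^ 2)) = κ / (12 * C) * ν ^ 2 := by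
      field_simp
    rw [e2]
    apply mul_le_mul_of_nonneg_right _ (by positivity)
    rw [le_div_iff₀ (by positivity)]
    linarith
  · have hn' : (n : ℝ) ≤ 2 * s := by linarith
    refine (hfin n hn').trans ?_
    have h2 : (1 / (384 * C ^ 4)) ^ n ≤ MM (RR μ W) n n := by
      refine le_trans ?_ (hlow n n hn le_rfl)
      apply pow_le_pow_left₀ (by positivity)
      rw [div_self n0.ne', Real.one_rpow]
      apply one_div_le_one_div_of_le C0
      calc C = C * 1 := (mul_one C).symm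
        _ ≤ 384 * C ^ 4 := by
            have h3 : C ≤ C ^ 4 := by
              calc C = C ^ 1 := (pow_one C).symm
                _ ≤ C ^ 4 := pow_le_pow_right₀ hC (by norm_num)
            linarith
    refine h2.trans ((all_le hW n).trans ?_)
    refine measureReal_mono ?_ (measure_ne_top _ _)
    intro ω hω
    refine le_trans ?_ (show (n : ℝ) ≤ (NN W n ω : ℝ) from hω)
    rw [hν2, ← hν3]
    calc t * ν ^ 2 ≤ ν * ν ^ 2 := mul_le_mul_of_nonneg_right htn (by positivity)
      _ = ν ^ 3 := by ring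

end prob

end H334HI
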