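import Pool.Agent.H334HI.Sets
import Pool.Agent.H334HI.Tail2

/-!
The number of the boundary vertices which are connected to the left half-line.
-/

set_option autoImplicit false

namespace H334HI
open Finset H974 Pool.Agent.H160R2.CV H362P TH976 MeasureTheory
open Pool.Agent.H160R2.CV.Quad Pool.Agent.H389R2.CD

/-- the boundary vertex `i + 1` is connected to the left half-line -/
def WE (i : ℕ) : Set (sqLattice.edgeSet → Bool) :=
  {ω | ∃ u ∈ LA, Reach (opn ω ∩ dE DH) u ((i : ℤ) + 1, 1)}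

theorem WE_meas (i : ℕ) : MeasurableSet (WE i) := by
  have e : WE i = ⋃ m : ℕ, {ω | (fun F : Finset Edg =>
      ∃ u ∈ LA, Reach (↑F ∩ dE DH) u ((i : ℤ) + 1, 1)) (FF (boxE m) ω)} := by
    ext ω
    rw [Set.mem_iUnion]
    constructor
    · rintro ⟨u, hu, h⟩
      obtain ⟨m, hm⟩ := InfAux.reach_box h
      refine ⟨m, u, hu, ?_⟩
      rw [FF_coe]
      apply hm.mono
      rintro x ⟨⟨h1, h2⟩, h3⟩
      exact ⟨⟨h1, h3⟩, h2⟩
    · rintro ⟨m, u, hu, h⟩
      rw [FF_coe] at h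
      refine ⟨u, hu, h.mono ?_⟩
      rintro x ⟨⟨h1, -⟩, h3⟩
      exact ⟨h1, h3⟩
  rw [e]
  exact MeasurableSet.iUnion fun m => meas_event (boxE m)
    (fun F : Finset Edg => ∃ u ∈ LA, Reach (↑F ∩ dE DH) u ((i : ℤ) + 1, 1))

theorem RR_eq (S : Finset ℕ) : RR (bondLaw hlf) WE S = PD DH (WS S) := rfl

theorem visits (hA : ArS) : ∃ C : ℝ, 1 ≤ C ∧
    (∀ k n : ℕ, 1 ≤ k → k ≤ n →
      (((n : ℝ) / k) ^ (2 / 3 : ℝ) / C) ^ k ≤ ∫ ω, ((NN WE n ω).choose k : ℝ) ∂(bondLaw hlf) ∧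
      ∫ ω, ((NN WE n ω).choose k : ℝ) ∂(bondLaw hlf) ≤ (C * ((n : ℝ) / k) ^ (2 / 3 : ℝ)) ^ k) ∧
    (∀ n : ℕ, 1 ≤ n → ∀ t : ℝ, 0 < t →
      (bondLaw hlf).real {ω | t * (n : ℝ) ^ (2 / 3 : ℝ) ≤ (NN WE n ω : ℝ)} ≤
        C * Real.exp (-(t ^ 3 / C))) ∧
    (∀ n : ℕ, 1 ≤ n → ∀ t : ℝ, 1 ≤ t → t ≤ (n : ℝ) ^ (1 / 3 : ℝ) →
      Real.exp (-(C * t ^ 3)) ≤
        (bondLaw hlf).real {ω | t * (n : ℝ) ^ (2 / 3 : ℝ) ≤ (NN WE n ω : ℝ)}) := by
  obtain ⟨K, hK, r1, r2⟩ := ratio hA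
  have K0 : 0 < K := by linarith
  have h0 : ∀ S, 0 ≤ RR (bondLaw hlf) WE S := fun S => measureReal_nonneg
  have up : ∀ k n : ℕ, 1 ≤ k → k ≤ n →
      MM (RR (bondLaw hlf) WE) k n ≤ ((24 * K) * ((n : ℝ) / k) ^ (2 / 3 : ℝ)) ^ k :=
    fun k n hk hkn => M_up h0 hK (fun m => (r1 m).1) (fun S m' m hS hm => (r2 S m' m hS hm).1) hk hkn
  have low : ∀ k n : ℕ, 1 ≤ k → k ≤ n →
      (((n : ℝ) / k) ^ (2 / 3 : ℝ) / (24 * K)) ^ k ≤ MM (RR (bondLaw hlf) WE) k n := by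
    intro k n hk hkn
    refine le_trans ?_ (M_low h0 hK (fun m => (r1 m).2)
      (fun S m' m hS hm => (r2 S m' m hS hm).2) hk hkn)
    apply pow_le_pow_left₀ (by positivity)
    apply div_le_div_of_nonneg_left (by positivity) (by positivity)
    linarith
  have hC1 : 1 ≤ 24 * K := by linarith
  set C1 : ℝ := 24 * K with hC1'
  have C10 : 0 < C1 := by linarith
  have C14 : 1 ≤ C1 ^ 4 := one_le_pow₀ hC1
  set C2 : ℝ := 2 * Real.log (384 * C1 ^ 4) * (12 * C1) ^ 3 with hC2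
  have C20 : 0 ≤ C2 := by
    have : 0 ≤ Real.log (384 * C1 ^ 4) := Real.log_nonneg (by linarith)
    positivity
  set C : ℝ := C1 + C2 + (6 * C1) ^ 3 + 3 with hC
  have c3 : 0 < (6 * C1) ^ 3 := by positivity
  have hCC1 : C1 ≤ C := by linarith
  have C0 : 0 < C := by linarith
  refine ⟨C, by linarith, ?_, ?_, ?_⟩
  · intro k n hk hkn
    rw [int_choose WE_meas]
    constructor
    · refine le_trans ?_ (low k n hk hkn)
      apply pow_le_pow_left₀ (by positivity)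
      exact div_le_div_of_nonneg_left (by positivity) C10 hCC1
    · refine (up k n hk hkn).trans ?_
      apply pow_le_pow_left₀ (by positivity)
      exact mul_le_mul_of_nonneg_right hCC1 (by positivity)
  · intro n hn t ht
    refine (tail_up WE_meas hC1 up hn ht).trans ?_
    have h1 : Real.exp (-(t / (6 * C1)) ^ 3) ≤ Real.exp (-(t ^ 3 / C)) := by
      apply Real.exp_le_exp.mpr
      rw [div_pow]
      apply neg_le_neg
      exact div_le_div_of_nonneg_left (by positivity) c3 (by linarith)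
    exact mul_le_mul (by linarith) h1 (Real.exp_pos _).le C0.le
  · intro n hn t ht htn
    refine le_trans ?_ (tail_low WE_meas hC1 up low hn ht htn)
    apply Real.exp_le_exp.mpr
    rw [← hC2, neg_mul]
    apply neg_le_neg
    apply mul_le_mul_of_nonneg_right _ (by positivity)
    linarith

end H334HI
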